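import Mathlib
import Pool.Graph.R_seed8.H358R5.Stubs4

/-! H529/MP: the kernel-checkable certificate for the criterion `gcrit2` (adapted from `H358R5`):
definitions. -/

open Finset

namespace Pool.Agent.H529.MP

open Pool.Agent.H358R5

/-- the total exponent of a chain of multiplications -/
def ex : List (Bool × ℕ) → ℕ → ℕ
  | [], e => e
  | (false, t) :: L, e => ex L (2 * e + t)
  | (true, t) :: L, e => ex L (e + t)

/-- upper bound for `∑ G(c)^2 W(c)`, `W(c) = 2 X - c` for `c ≤ X`, `2 X` otherwise; `p` is the position -/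
def smw (X : ℕ) : BT → ℕ → ℕ
  | .leaf l v, p => v ^ 2 * (l * (bif Nat.ble (p + l) X then 2 * X - (p + 1) else 2 * X))
  | .node a b, p => smw X a p + smw X b (p + a.len)

/-- all the values at the positions `c - 1` with `8 c > 663 X` vanish -/
def capok (X : ℕ) : BT → ℕ → Bool
  | .leaf l v, p => Nat.beq v 0 || Nat.ble (8 * (p + l)) (663 * X)
  | .node a b, p => capok X a p && capok X b (p + a.len)

/-- the sum of the jumps -/
def js : List (ℕ × ℕ) → ℕ
  | [] => 0
  | (_, d) :: L => d + js L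

/-- the final check; `e` is the exponent of the chain, `BC` the bound for the bad cells -/
def finQ (w : ℕ) (t : BT) (P M : List (ℕ × ℕ)) (st : ST) (tK m K X1 S1 XX q e BC n X S E : ℕ) : Bool :=
  Nat.beq (n + 1) K && (Nat.blt (S + 1) (1 <<< w) && (Nat.blt (S * S1 / 2 ^ tK + 1) (1 <<< w) &&
    (Nat.blt (S * S1) (1 <<< w) && (Nat.ble tK w && (Nat.beq st.len (t.len + 1) &&
      (Nat.ble (2 ^ 48 * (js P * t.sm t.len) ^ 2 * (smw XX t 0) ^ n) (BC * (2 ^ e * (2 * XX) ^ n)) &&
      Nat.blt (10 * q * (4 * m * (250 * XX)) *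
          (st.denP w t.len ((E * S1) / 2 ^ tK + 2) P M (mulS w (t.len + 1) tK X X1) 0 * 2 ^ tK) +
          41 * q ^ 2 * K * BC)
        (10 * (q - 1) * K * st.numP w t.len t P M X 0)))))))

/-- the certificate check -/
def chkQ (w : ℕ) (t : BT) (P M : List (ℕ × ℕ)) (st : ST) (L : List (Bool × ℕ)) (tK m K XX q BC : ℕ) : Bool :=
  Nat.ble (16 * (t.len - 1)) (4085 * XX) && (capok XX t 0 &&
  go w (t.len + 1) ((t.pkt w) <<< w) (t.sm2 t.len)
    (finQ w t P M st tK m K ((t.pkt w) <<< w) (t.sm2 t.len) XX q (ex L 0) BC) L 1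
    ((t.pkt w) <<< w) (t.sm2 t.len) 0)

end Pool.Agent.H529.MP
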