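import Mathlib
import Pool.Graph.R_seed8.Y826.ZG.Main
import Pool.Graph.R_seed8.Y826.ZG.P2L
import Pool.Graph.R_seed8.Y333.Z.Comb2
import Pool.Graph.R_seed8.H358R5.GCrit
import Pool.Agent.H529.MP.CritLM

/-! H529/MP: the criterion for `m + 1` primes with product weights, beyond the level `1/2`.
The cells with enough small coordinates (good cells, `Y826.Z.Gd2`) can be evaluated in pairs up to the
total radius `2.0425`; the other outer cells have a very small mass, by an exponential moment. -/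

open Finset Filter

namespace Pool.Agent.H529.MP

open Pool.Agent.H358R5 (AG FG FG_sq FG_marg FG_inner LHyp goodM)
open Pool.Agent.H95R2.BG
open Pool.Agent.H95R2.BG.LF (AdmissibleL)
open Pool.Agent.Y826.Z (Gd2 Sm Ev comb2)

theorem Sm_mono {K0 : ℕ} (N1 : ℕ) (c : Fin K0 → ℕ) {x y : ℝ} (h : x ≤ y) : Sm N1 x c ≤ Sm N1 y c := by
  unfold Sm
  apply Finset.sum_le_sum
  intro j _
  have h0 : (0 : ℝ) ≤ ((c j : ℝ) + 1) / N1 := by positivity
  by_cases h1 : ((c j : ℝ) + 1) / N1 ≤ x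
  · rw [if_pos h1, if_pos (h1.trans h)]
  · rw [if_neg h1]
    split_ifs
    · exact h0
    · exact le_rfl

theorem gd2_of {K0 N1 : ℕ} (c : Fin K0 → ℕ) (hcap : ∀ j, ((c j : ℝ) + 1) / N1 ≤ 0.3315)
    (hr : (rad c : ℝ) / N1 ≤ 1.1) (hr2 : 0.2255 ≤ (rad c : ℝ) / N1) (hs : 0.1912 ≤ Sm N1 0.004 c) :
    Gd2 N1 c := by
  have hm : ∀ y : ℝ, 0.004 ≤ y → 0.1912 ≤ Sm N1 y c := fun y hy => hs.trans (Sm_mono N1 c hy)
  have h6 : Sm N1 0.3315 c = (rad c : ℝ) / N1 := by
    unfold Sm rad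
    rw [Finset.sum_congr rfl fun j _ => if_pos (hcap j)]
    push_cast
    rw [Finset.sum_div]
  refine ⟨fun j => (hcap j).trans (by norm_num), hr, ?_, ?_, ?_, ?_, ?_, ?_, ?_, ?_⟩
  · exact le_trans (by norm_num) hs
  · exact le_trans (by norm_num) (hm 0.01 (by norm_num))
  · exact le_trans (by norm_num) (hm 0.015 (by norm_num))
  · exact le_trans (by norm_num) (hm 0.0354 (by norm_num))
  · exact le_trans (by norm_num) (hm 0.0897 (by norm_num))
  · exact le_trans (by norm_num) (hm 0.1355 (by norm_num))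
  · exact hm 0.1666 (by norm_num)
  · rw [h6]; exact hr2

/-- the tilt -/
noncomputable def wt (X n : ℕ) : ℝ := if n ≤ X then 1 - (n : ℝ) / (2 * X) else 1

theorem wt_nonneg (X n : ℕ) (hX : 0 < X) : 0 ≤ wt X n := by
  unfold wt
  split_ifs with h
  · have h1 : (n : ℝ) ≤ X := by exact_mod_cast h
    have h2 : (0 : ℝ) < X := by exact_mod_cast hX
    rw [sub_nonneg, div_le_one (by positivity)]
    linarith
  · norm_num

theorem wt_ge (X n : ℕ) (hX : 0 < X) :
    (1 / 2 : ℝ) ^ (if n ≤ X then (n : ℝ) / X else 0) ≤ wt X n := by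
  unfold wt
  have h2 : (0 : ℝ) < X := by exact_mod_cast hX
  split_ifs with h
  · have h1 : (n : ℝ) ≤ X := by exact_mod_cast h
    have h3 := rpow_one_add_le_one_add_mul_self (s := -(1 / 2 : ℝ)) (by norm_num)
      (p := (n : ℝ) / X) (by positivity) (by rw [div_le_one h2]; exact h1)
    have h4 : (1 : ℝ) + -(1 / 2) = 1 / 2 := by norm_num
    rw [h4] at h3
    refine h3.trans (le_of_eq ?_)
    field_simp
    ring
  · simp

theorem tilt {K0 : ℕ} (X : ℕ) (hX : 0 < X) (c : Fin K0 → ℕ) (hs : Sm (250 * X) 0.004 c < 0.1912) :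
    1 ≤ 2 ^ 48 * ∏ j, wt X (c j + 1) := by
  have h2 : (0 : ℝ) < X := by exact_mod_cast hX
  have h1 : ∑ j, (if c j + 1 ≤ X then ((c j + 1 : ℕ) : ℝ) / X else 0) = 250 * Sm (250 * X) 0.004 c := by
    unfold Sm
    rw [Finset.mul_sum]
    refine Finset.sum_congr rfl fun j _ => ?_
    have e1 : (((c j : ℝ) + 1) / ((250 * X : ℕ) : ℝ) ≤ 0.004) ↔ c j + 1 ≤ X := by
      rw [div_le_iff₀ (by positivity)]
      push_cast
      constructor
      · intro h
        have : ((c j + 1 : ℕ) : ℝ) ≤ X := by push_cast; linarith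
        exact_mod_cast this
      · intro h
        have : ((c j + 1 : ℕ) : ℝ) ≤ X := by exact_mod_cast h
        push_cast at this
        linarith
    by_cases h : c j + 1 ≤ X
    · rw [if_pos h, if_pos (e1.2 h)]
      push_cast
      field_simp
    · rw [if_neg h, if_neg (fun h' => h (e1.1 h'))]
      simp
  have h3 : (1 / 2 : ℝ) ^ (48 : ℝ) ≤ ∏ j, wt X (c j + 1) := by
    calc (1 / 2 : ℝ) ^ (48 : ℝ)
        ≤ (1 / 2 : ℝ) ^ (∑ j, (if c j + 1 ≤ X then ((c j + 1 : ℕ) : ℝ) / X else 0)) := by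
          apply Real.rpow_le_rpow_of_exponent_ge (by norm_num) (by norm_num)
          rw [h1]
          linarith
      _ = ∏ j, (1 / 2 : ℝ) ^ (if c j + 1 ≤ X then ((c j + 1 : ℕ) : ℝ) / X else 0) :=
          Real.rpow_sum_of_pos (by norm_num) _ _
      _ ≤ _ := Finset.prod_le_prod (fun j _ => by positivity) fun j _ => wt_ge X (c j + 1) hX
  have h4 : (1 / 2 : ℝ) ^ (48 : ℝ) = 1 / 2 ^ 48 := by
    have : (48 : ℝ) = ((48 : ℕ) : ℝ) := by norm_num
    rw [this, Real.rpow_natCast]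
    norm_num
  rw [h4] at h3
  calc (1 : ℝ) = 2 ^ 48 * (1 / 2 ^ 48) := by norm_num
    _ ≤ _ := mul_le_mul_of_nonneg_left h3 (by positivity)

/-- the bound for the bad cells -/
noncomputable def BS (G : ℕ → ℕ) (X N : ℕ) : ℝ := ∑ t ∈ range N, (G (t + 1) : ℝ) ^ 2 * wt X (t + 1)

theorem tilt_sum (G : ℕ → ℕ) (K0 X N : ℕ) :
    ∑ c ∈ Box K0 N, ((∏ j, (G (c j + 1) : ℝ)) ^ 2 * ∏ j, wt X (c j + 1)) = BS G X N ^ K0 := by
  unfold Box BS
  have h := Finset.prod_univ_sum (ι := Fin K0) (fun _ => range N)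
    (fun _ t => (G (t + 1) : ℝ) ^ 2 * wt X (t + 1))
  rw [Finset.prod_const, Finset.card_univ, Fintype.card_fin] at h
  rw [h]
  refine Finset.sum_congr rfl fun c _ => ?_
  rw [Finset.prod_mul_distrib, Finset.prod_pow]

theorem gcrit2 (m K0 N X q Hm : ℕ) (G φ : ℕ → ℕ) (hX : 0 < X) (hq : 0 < q) (hN : 2 ≤ N)
    (hR : 16 * (N - 1) ≤ 4085 * X) (hcap : ∀ n, G n ≠ 0 → 8 * n ≤ 663 * X)
    (hHm : ∀ y, y ≤ N → ∑ t ∈ range y, G (t + 1) * φ (y - 1 - t) ≤ Hm)
    (h : 4 * m * (250 * X) * (∑ s ∈ range (N + 1), AG G (K0 + 1) s * φ (N - s) ^ 2 : ℕ) +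
        4.1 * q * (K0 + 1) * (2 ^ 48 * (Hm : ℝ) ^ 2 * BS G X N ^ K0) <
      (1 - 1 / (q : ℝ)) * (K0 + 1) * (∑ s ∈ range (N + 1), AG G K0 s *
        (∑ t ∈ range (N - s), G (t + 1) * φ (N - s - 1 - t)) ^ 2 : ℕ)) : LHyp m (K0 + 1) := by
  classical
  intro A B hA hne hloc ε hε
  have hX' : (0 : ℝ) < X := by exact_mod_cast hX
  have hq' : (0 : ℝ) < q := by exact_mod_cast hq
  have hq1 : (1 : ℝ) ≤ q := by exact_mod_cast hq
  have hRr : ((N - 1 : ℕ) : ℝ) ≤ 255.3125 * X := by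
    have h1 : ((16 * (N - 1) : ℕ) : ℝ) ≤ ((4085 * X : ℕ) : ℝ) := by exact_mod_cast hR
    push_cast at h1
    linarith
  have hBox : ∀ k M : ℕ, Box k M = Fintype.piFinset (fun _ : Fin k => range M) := fun _ _ => rfl
  -- the classes of cells
  obtain ⟨inn, hinn⟩ : ∃ inn : (Fin K0 → ℕ) → Prop, ∀ c, inn c ↔ rad c + (N - 1) ≤ 2 * (250 * X) :=
    ⟨_, fun _ => Iff.rfl⟩
  obtain ⟨gd, hgd⟩ : ∃ gd : (Fin K0 → ℕ) → Prop, ∀ c, gd c ↔ (¬ inn c ∧ Gd2 (250 * X) c) :=
    ⟨_, fun _ => Iff.rfl⟩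
  obtain ⟨bd, hbd⟩ : ∃ bd : (Fin K0 → ℕ) → Prop, ∀ c, bd c ↔ (¬ inn c ∧ ¬ Gd2 (250 * X) c) :=
    ⟨_, fun _ => Iff.rfl⟩
  obtain ⟨I, hI⟩ : ∃ I : (Fin K0 → ℕ) → ℝ, ∀ c, I c = if inn c then 1 else 0 := ⟨_, fun _ => rfl⟩
  obtain ⟨J, hJ⟩ : ∃ J : (Fin K0 → ℕ) → ℝ, ∀ c, J c = if gd c then 1 else 0 := ⟨_, fun _ => rfl⟩
  obtain ⟨E, hE⟩ : ∃ E : (Fin K0 → ℕ) → ℝ, ∀ c, E c = if bd c then 1 else 0 := ⟨_, fun _ => rfl⟩
  have hcases : ∀ c, (I c = 1 ∧ J c = 0 ∧ E c = 0) ∨ (I c = 0 ∧ J c = 1 ∧ E c = 0) ∨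
      (I c = 0 ∧ J c = 0 ∧ E c = 1) := by
    intro c
    rw [hI, hJ, hE]
    by_cases h1 : inn c
    · left
      have h2 : ¬ gd c := fun h => ((hgd c).1 h).1 h1
      have h3 : ¬ bd c := fun h => ((hbd c).1 h).1 h1
      simp [h1, h2, h3]
    · by_cases h2 : Gd2 (250 * X) c
      · right; left
        have h3 : gd c := (hgd c).2 ⟨h1, h2⟩
        have h4 : ¬ bd c := fun h => ((hbd c).1 h).2 h2
        simp [h1, h3, h4]
      · right; right
        have h3 : ¬ gd c := fun h => h2 ((hgd c).1 h).2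
        have h4 : bd c := (hbd c).2 ⟨h1, h2⟩
        simp [h1, h3, h4]
  obtain ⟨S, hS⟩ : ∃ S : Finset (Fin K0 → ℕ), S = (Box K0 N).filter (fun c => rad c ≤ N - 1) := ⟨_, rfl⟩
  -- the marginals
  have hUU : ∀ (i : Fin (K0 + 1)) (c : Fin K0 → ℕ), UU N (FG G φ N) i c = (∏ j, (G (c j + 1) : ℝ)) * (∑ t ∈ range (N - rad c),
        G (t + 1) * φ (N - rad c - 1 - t) : ℕ) := fun i c => FG_inner G φ N K0 i c
  have hUU0 : ∀ (i : Fin (K0 + 1)) (c : Fin K0 → ℕ), ¬ rad c ≤ N - 1 → UU N (FG G φ N) i c = 0 := by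
    intro i c hc
    rw [hUU]
    have : N - rad c = 0 := by omega
    rw [this]
    simp
  have hbad : ∀ (i : Fin (K0 + 1)) (c : Fin K0 → ℕ), rad c ≤ N - 1 → E c * UU N (FG G φ N) i c ^ 2 ≤
      2 ^ 48 * (Hm : ℝ) ^ 2 * ((∏ j, (G (c j + 1) : ℝ)) ^ 2 * ∏ j, wt X (c j + 1)) := by
    intro i c hc
    have hw : 0 ≤ ∏ j, wt X (c j + 1) := Finset.prod_nonneg fun j _ => wt_nonneg X _ hX
    have hr0 : 0 ≤ 2 ^ 48 * (Hm : ℝ) ^ 2 * ((∏ j, (G (c j + 1) : ℝ)) ^ 2 * ∏ j, wt X (c j + 1)) := by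
      positivity
    by_cases hb : bd c
    · rw [hE, if_pos hb, one_mul]
      by_cases hz : ∃ j, G (c j + 1) = 0
      · obtain ⟨j, hj⟩ := hz
        have h1 : ∏ j, (G (c j + 1) : ℝ) = 0 := Finset.prod_eq_zero (mem_univ j) (by rw [hj]; simp)
        rw [hUU, h1, zero_mul]
        simp
      · push Not at hz
        have h1 := ((hbd c).1 hb).1
        have h2 := ((hbd c).1 hb).2
        rw [hinn] at h1
        have hrr : (rad c : ℝ) ≤ 255.3125 * X := by
          refine le_trans ?_ hRr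
          exact_mod_cast hc
        have hro : (244.6875 : ℝ) * X ≤ rad c := by
          have h3 : 2 * (250 * X) < rad c + (N - 1) := by omega
          have h4 : ((2 * (250 * X) : ℕ) : ℝ) < ((rad c + (N - 1) : ℕ) : ℝ) := by exact_mod_cast h3
          rw [Nat.cast_add] at h4
          push_cast at h4
          linarith
        have hsm : Sm (250 * X) 0.004 c < 0.1912 := by
          by_contra hcon
          push Not at hcon
          apply h2
          refine gd2_of c ?_ ?_ ?_ hcon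
          · intro j
            have h5 := hcap _ (hz j)
            have h6 : ((8 * (c j + 1) : ℕ) : ℝ) ≤ ((663 * X : ℕ) : ℝ) := by exact_mod_cast h5
            push_cast at h6
            rw [div_le_iff₀ (by positivity)]
            push_cast
            linarith
          · rw [div_le_iff₀ (by positivity)]
            push_cast
            linarith
          · rw [le_div_iff₀ (by positivity)]
            push_cast
            linarith
        have ht := tilt X hX c hsm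
        rw [hUU, mul_pow]
        have h7 : ((∑ t ∈ range (N - rad c), G (t + 1) * φ (N - rad c - 1 - t) : ℕ) : ℝ) ≤ Hm := by
          exact_mod_cast hHm (N - rad c) (by omega)
        have h8 : ((∑ t ∈ range (N - rad c), G (t + 1) * φ (N - rad c - 1 - t) : ℕ) : ℝ) ^ 2 ≤
            (Hm : ℝ) ^ 2 := pow_le_pow_left₀ (Nat.cast_nonneg _) h7 2
        calc (∏ j, (G (c j + 1) : ℝ)) ^ 2 *
              ((∑ t ∈ range (N - rad c), G (t + 1) * φ (N - rad c - 1 - t) : ℕ) : ℝ) ^ 2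
            ≤ (∏ j, (G (c j + 1) : ℝ)) ^ 2 * (Hm : ℝ) ^ 2 :=
              mul_le_mul_of_nonneg_left h8 (by positivity)
          _ = ((∏ j, (G (c j + 1) : ℝ)) ^ 2 * (Hm : ℝ) ^ 2) * 1 := by ring
          _ ≤ ((∏ j, (G (c j + 1) : ℝ)) ^ 2 * (Hm : ℝ) ^ 2) * (2 ^ 48 * ∏ j, wt X (c j + 1)) :=
              mul_le_mul_of_nonneg_left ht (by positivity)
          _ = _ := by ring
    · rw [hE, if_neg hb, zero_mul]
      exact hr0
  have hmain : ∀ᶠ X' : ℝ in atTop, X' ^ (1 - ε) ≤ ((goodM m A B X').card : ℝ) := by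
    refine critlm (Pool.Agent.Y826.ZG.p2l Pool.Agent.Y826.ZG.s_zz) m (K0 := K0) (N1 := 250 * X) (M := N)
      (R := N - 1) (by omega) (by omega) (by omega) (FG G φ N) ?_ S ?_ ?_ 1 (fun _ => (q : ℝ) - 1) ?_
      (fun _ => E) (fun c c' => I c + I c' - I c * I c' + (1 - 1 / (q : ℝ)) * (J c * J c')) ?_ ?_ ?_ A B
      ⟨hA, hne, hloc⟩ ε hε
    · intro c hc
      unfold FG at hc
      have h1 : ∑ j, (c j + 1) ≤ N := by
        by_contra hcon
        rw [if_neg hcon] at hc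
        exact hc rfl
      unfold rad
      omega
    · rw [hS]; exact filter_subset _ _
    · intro i c hc hu
      rw [hS, mem_filter]
      refine ⟨hc, ?_⟩
      by_contra hcon
      exact hu (hUU0 i c hcon)
    · intro _
      linarith
    · intro Y
      obtain ⟨T, hT⟩ : ∃ T : ℝ, T = ∑ c ∈ S, Y c := ⟨_, rfl⟩
      obtain ⟨Z, hZ⟩ : ∃ Z : ℝ, Z = ∑ c ∈ S, I c * Y c := ⟨_, rfl⟩
      obtain ⟨P, hP⟩ : ∃ P : ℝ, P = ∑ c ∈ S, J c * Y c := ⟨_, rfl⟩
      obtain ⟨Q, hQ⟩ : ∃ Q : ℝ, Q = ∑ c ∈ S, E c * Y c := ⟨_, rfl⟩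
      have hTs : T = Z + P + Q := by
        rw [hT, hZ, hP, hQ, ← Finset.sum_add_distrib, ← Finset.sum_add_distrib]
        refine Finset.sum_congr rfl fun c _ => ?_
        rcases hcases c with ⟨h1, h2, h3⟩ | ⟨h1, h2, h3⟩ | ⟨h1, h2, h3⟩ <;> rw [h1, h2, h3] <;> ring
      have h1 : ∑ c ∈ S, ∑ c' ∈ S, (I c + I c' - I c * I c' + (1 - 1 / (q : ℝ)) * (J c * J c')) *
          (Y c * Y c') = Z * T + T * Z - Z * Z + (1 - 1 / (q : ℝ)) * (P * P) := by
        have h2 : ∀ c c', (I c + I c' - I c * I c' + (1 - 1 / (q : ℝ)) * (J c * J c')) * (Y c * Y c') =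
            (I c * Y c) * Y c' + Y c * (I c' * Y c') - (I c * Y c) * (I c' * Y c') +
            (1 - 1 / (q : ℝ)) * ((J c * Y c) * (J c' * Y c')) := fun c c' => by ring
        simp only [h2, Finset.sum_add_distrib, Finset.sum_sub_distrib, ← Finset.mul_sum, ← Finset.sum_mul,
          ← hT, ← hZ, ← hP]
      rw [h1]
      simp only [Finset.univ_unique, Finset.sum_singleton]
      rw [← hT, ← hQ, hTs]
      have h3 : 0 ≤ (P + q * Q) ^ 2 / q := by positivity
      have h4 : (P + q * Q) ^ 2 / q = P * P / q + 2 * P * Q + q * Q * Q := by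
        field_simp
        ring
      rw [h4] at h3
      have h5 : (1 - 1 / (q : ℝ)) * (P * P) = P * P - P * P / q := by ring
      rw [h5]
      nlinarith
    · intro c hc c' hc' hk
      rw [hS, mem_filter] at hc hc'
      by_cases h1 : inn c
      · left
        rw [hinn] at h1
        omega
      · by_cases h2 : inn c'
        · left
          rw [hinn] at h2
          omega
        · have e1 : I c = 0 := by rw [hI, if_neg h1]
          have e2 : I c' = 0 := by rw [hI, if_neg h2]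
          rw [e1, e2] at hk
          have h3 : J c ≠ 0 := by intro h; apply hk; rw [h]; ring
          have h4 : J c' ≠ 0 := by intro h; apply hk; rw [h]; ring
          rw [hJ] at h3 h4
          have h5 : gd c := by by_contra hcon; rw [if_neg hcon] at h3; exact h3 rfl
          have h6 : gd c' := by by_contra hcon; rw [if_neg hcon] at h4; exact h4 rfl
          refine comb2 K0 (250 * X) (by omega) c c' ((hgd c).1 h5).2 ((hgd c').1 h6).2 ?_
          rw [div_le_iff₀ (by positivity)]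
          have h7 : ((rad c + rad c' : ℕ) : ℝ) ≤ (((N - 1) + (N - 1) : ℕ) : ℝ) := by
            exact_mod_cast Nat.add_le_add hc.2 hc'.2
          rw [Nat.cast_add (N - 1) (N - 1)] at h7
          push_cast at h7 ⊢
          push_cast at hRr
          linarith
    · have e1 : ∑ c ∈ Box (K0 + 1) N, FG G φ N c ^ 2 =
          ∑ s ∈ range (N + 1), (AG G (K0 + 1) s : ℝ) * (φ (N - s) : ℝ) ^ 2 := by
        rw [hBox]; exact FG_sq G φ N (K0 + 1)
      have e2 : ∀ i : Fin (K0 + 1), ∑ c ∈ S, UU N (FG G φ N) i c ^ 2 =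
          ∑ s ∈ range (N + 1), (AG G K0 s : ℝ) *
            ((∑ t ∈ range (N - s), G (t + 1) * φ (N - s - 1 - t) : ℕ) : ℝ) ^ 2 := by
        intro i
        rw [← FG_marg G φ N K0 i, ← hBox, hS]
        apply Finset.sum_filter_of_ne
        intro c _ hne
        by_contra hcon
        exact hne (by rw [hUU0 i c hcon]; simp)
      have e3 : ∀ i : Fin (K0 + 1), ∑ c ∈ S, E c * UU N (FG G φ N) i c ^ 2 ≤
          2 ^ 48 * (Hm : ℝ) ^ 2 * BS G X N ^ K0 := by
        intro i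
        rw [← tilt_sum, Finset.mul_sum]
        refine (Finset.sum_le_sum fun c hc => hbad i c ?_).trans ?_
        · rw [hS, mem_filter] at hc; exact hc.2
        · apply Finset.sum_le_sum_of_subset_of_nonneg
          · rw [hS]; exact filter_subset _ _
          · intro c _ _
            have hw : 0 ≤ ∏ j, wt X (c j + 1) := Finset.prod_nonneg fun j _ => wt_nonneg X _ hX
            positivity
      have e4 : ∀ i : Fin (K0 + 1), (1 - 1 / (q : ℝ)) * ∑ c ∈ S, UU N (FG G φ N) i c ^ 2 -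
          4.1 * q * ∑ c ∈ S, E c * UU N (FG G φ N) i c ^ 2 ≤
          ∑ c ∈ S, (I c + I c - I c * I c + (1 - 1 / (q : ℝ)) * (J c * J c) -
            4 * ∑ l : Fin 1, ((q : ℝ) - 1) * (E c ^ 2 / (2 - (rad c : ℝ) / ((250 * X : ℕ) : ℝ)))) *
            UU N (FG G φ N) i c ^ 2 := by
        intro i
        rw [Finset.mul_sum, Finset.mul_sum, ← Finset.sum_sub_distrib]
        apply Finset.sum_le_sum
        intro c hc
        rw [hS, mem_filter] at hc
        simp only [Finset.univ_unique, Finset.sum_singleton]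
        have hu : 0 ≤ UU N (FG G φ N) i c ^ 2 := sq_nonneg _
        have hrr : (rad c : ℝ) ≤ 255.3125 * X := by
          refine le_trans ?_ hRr
          exact_mod_cast hc.2
        have hd : (0.97875 : ℝ) ≤ 2 - (rad c : ℝ) / ((250 * X : ℕ) : ℝ) := by
          have : (rad c : ℝ) / ((250 * X : ℕ) : ℝ) ≤ 1.02125 := by
            rw [div_le_iff₀ (by positivity)]
            push_cast
            linarith
          linarith
        have hkey : (1 - 1 / (q : ℝ)) - 4.1 * q * E c ≤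
            I c + I c - I c * I c + (1 - 1 / (q : ℝ)) * (J c * J c) -
            4 * (((q : ℝ) - 1) * (E c ^ 2 / (2 - (rad c : ℝ) / ((250 * X : ℕ) : ℝ)))) := by
          have hq2 : (0 : ℝ) < 1 / q := by positivity
          have hq3 : (1 : ℝ) / q ≤ 1 := by rw [div_le_one hq']; exact hq1
          rcases hcases c with ⟨h1, h2, h3⟩ | ⟨h1, h2, h3⟩ | ⟨h1, h2, h3⟩
          · rw [h1, h2, h3]; norm_num
          · rw [h1, h2, h3]; norm_num
          · rw [h1, h2, h3]
            have h5 : (1 : ℝ) ^ 2 / (2 - (rad c : ℝ) / ((250 * X : ℕ) : ℝ)) ≤ 1 / 0.97875 := by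
              rw [one_pow]
              exact one_div_le_one_div_of_le (by norm_num) hd
            have h6 : ((q : ℝ) - 1) * ((1 : ℝ) ^ 2 / (2 - (rad c : ℝ) / ((250 * X : ℕ) : ℝ))) ≤
                ((q : ℝ) - 1) * (1 / 0.97875) := mul_le_mul_of_nonneg_left h5 (by linarith)
            have h7 : (1 : ℝ) / 0.97875 ≤ 1.022 := by norm_num
            have h8 : ((q : ℝ) - 1) * (1 / 0.97875) ≤ ((q : ℝ) - 1) * 1.022 :=
              mul_le_mul_of_nonneg_left h7 (by linarith)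
            nlinarith
        calc (1 - 1 / (q : ℝ)) * UU N (FG G φ N) i c ^ 2 - 4.1 * q * (E c * UU N (FG G φ N) i c ^ 2)
            = ((1 - 1 / (q : ℝ)) - 4.1 * q * E c) * UU N (FG G φ N) i c ^ 2 := by ring
          _ ≤ _ := mul_le_mul_of_nonneg_right hkey hu
      refine lt_of_lt_of_le ?_ (Finset.sum_le_sum fun i _ => e4 i)
      rw [e1]
      have e5 : ∑ i : Fin (K0 + 1), ((1 - 1 / (q : ℝ)) * ∑ c ∈ S, UU N (FG G φ N) i c ^ 2 -
          4.1 * q * ∑ c ∈ S, E c * UU N (FG G φ N) i c ^ 2) ≥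
          (K0 + 1) * ((1 - 1 / (q : ℝ)) * (∑ s ∈ range (N + 1), (AG G K0 s : ℝ) *
            ((∑ t ∈ range (N - s), G (t + 1) * φ (N - s - 1 - t) : ℕ) : ℝ) ^ 2) -
            4.1 * q * (2 ^ 48 * (Hm : ℝ) ^ 2 * BS G X N ^ K0)) := by
        have h9 : ∀ i : Fin (K0 + 1), (1 - 1 / (q : ℝ)) * (∑ s ∈ range (N + 1), (AG G K0 s : ℝ) *
            ((∑ t ∈ range (N - s), G (t + 1) * φ (N - s - 1 - t) : ℕ) : ℝ) ^ 2) -
            4.1 * q * (2 ^ 48 * (Hm : ℝ) ^ 2 * BS G X N ^ K0) ≤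
            (1 - 1 / (q : ℝ)) * ∑ c ∈ S, UU N (FG G φ N) i c ^ 2 -
            4.1 * q * ∑ c ∈ S, E c * UU N (FG G φ N) i c ^ 2 := by
          intro i
          rw [e2 i]
          have := mul_le_mul_of_nonneg_left (e3 i) (by positivity : (0 : ℝ) ≤ 4.1 * q)
          linarith
        refine le_trans (le_of_eq ?_) (Finset.sum_le_sum fun i _ => h9 i)
        rw [Finset.sum_const, Finset.card_univ, Fintype.card_fin, nsmul_eq_mul]
        push_cast
        ring
      refine lt_of_lt_of_le ?_ e5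
      push_cast at h ⊢
      linarith
  filter_upwards [hmain] with X' hX'
  refine hX'.trans (le_of_eq ?_)
  unfold goodM
  congr 2

end Pool.Agent.H529.MP
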