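import Mathlib
import Pool.Agent.H529.MP.CKDefs
import Pool.Agent.H529.MP.GB
import Pool.Graph.R_seed8.H358R5.SOUNDP
import Pool.Graph.R_seed8.H358R5.Three

/-! H529/MP: soundness of the certificate check. -/

open Finset

namespace Pool.Agent.H529.MP

open Pool.Agent.H358R5

theorem go_ex (h1 : S_INVMUL) (G : ℕ → ℕ) (w n1 X1 S1 : ℕ) (f : ℕ → ℕ → ℕ → ℕ → Bool)
    (hw : 0 < w) (h0 : Inv G w n1 1 X1 S1 0 0) : ∀ (L : List (Bool × ℕ)) (n X S E e : ℕ),
    Inv G w n1 n X S E e → go w n1 X1 S1 f L n X S E = true →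
    ∃ n' X' S' E', f n' X' S' E' = true ∧ Inv G w n1 n' X' S' E' (ex L e) := by
  intro L
  induction L with
  | nil =>
    intro n X S E e hI hg
    exact ⟨n, X, S, E, hg, hI⟩
  | cons p L ih =>
    intro n X S E e hI hg
    obtain ⟨b, t⟩ := p
    cases b with
    | false =>
      simp only [go, Bool.and_eq_true] at hg
      obtain ⟨hg1, hg2, hg3⟩ := hg
      have hS : S * S < 2 ^ w := by
        have := Nat.blt_eq.mp hg1
        rwa [Nat.one_shiftLeft] at this
      have ht : t ≤ w := Nat.le_of_ble_eq_true hg2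
      have hI' := h1 G w n1 n X S E e n X S E e t hw ht hI hI hS
      have e1 : n + n = 2 * n := by ring
      have e2 : E * S + E * S + E * E * n1 = 2 * E * S + E * E * n1 := by ring
      have e3 : e + e + t = 2 * e + t := by ring
      rw [e1, e2, e3] at hI'
      exact ih _ _ _ _ _ hI' hg3
    | true =>
      simp only [go, Bool.and_eq_true] at hg
      obtain ⟨hg1, hg2, hg3⟩ := hg
      have hS : S * S1 < 2 ^ w := by
        have := Nat.blt_eq.mp hg1
        rwa [Nat.one_shiftLeft] at this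
      have ht : t ≤ w := Nat.le_of_ble_eq_true hg2
      have hI' := h1 G w n1 n X S E e 1 X1 S1 0 0 t hw ht hI h0 hS
      have e2 : E * S1 + 0 * S + E * 0 * n1 = E * S1 := by ring
      have e3 : e + 0 + t = e + t := by ring
      rw [e2, e3] at hI'
      exact ih _ _ _ _ _ hI' hg3

/-! the tree functions -/

theorem capok_sound (X : ℕ) : ∀ (t : BT) (p i : ℕ), capok X t p = true → t.val i ≠ 0 →
    8 * (p + i + 1) ≤ 663 * X := by
  intro t
  induction t with
  | leaf l v =>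
    intro p i h hv
    simp only [capok, Bool.or_eq_true] at h
    simp only [BT.val] at hv
    have hi : i < l := by
      by_contra hcon
      rw [if_neg hcon] at hv
      exact hv rfl
    rw [if_pos hi] at hv
    rcases h with h | h
    · exact absurd (Nat.eq_of_beq_eq_true h) hv
    · have := Nat.le_of_ble_eq_true h
      omega
  | node a b iha ihb =>
    intro p i h hv
    simp only [capok, Bool.and_eq_true] at h
    simp only [BT.val] at hv
    split_ifs at hv with hi
    · exact iha p i h.1 hv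
    · have := ihb (p + a.len) (i - a.len) h.2 hv
      omega

theorem val_ge (t : BT) : ∀ i, t.len ≤ i → t.val i = 0 := by
  induction t with
  | leaf l v =>
    intro i hi
    simp only [BT.len] at hi
    simp only [BT.val]
    rw [if_neg (by omega)]
  | node a b iha ihb =>
    intro i hi
    simp only [BT.len] at hi
    simp only [BT.val]
    rw [if_neg (by omega)]
    exact ihb _ (by omega)

/-- the weights -/
def W2 (X c : ℕ) : ℕ := if c ≤ X then 2 * X - c else 2 * X

theorem smw_sound (X : ℕ) : ∀ (t : BT) (p : ℕ),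
    ∑ i ∈ range t.len, t.val i ^ 2 * W2 X (p + i + 1) ≤ smw X t p := by
  intro t
  induction t with
  | leaf l v =>
    intro p
    simp only [BT.len, BT.val, smw]
    have h1 : ∀ i ∈ range l, (if i < l then v else 0) ^ 2 * W2 X (p + i + 1) ≤
        v ^ 2 * (bif Nat.ble (p + l) X then 2 * X - (p + 1) else 2 * X) := by
      intro i hi
      rw [mem_range] at hi
      rw [if_pos hi]
      apply Nat.mul_le_mul_left
      unfold W2
      by_cases hb : p + l ≤ X
      · rw [Nat.ble_eq_true_of_le hb]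
        simp only [cond_true]
        rw [if_pos (by omega)]
        omega
      · have : Nat.ble (p + l) X = false := by
          cases hbb : Nat.ble (p + l) X with
          | false => rfl
          | true => exact absurd (Nat.le_of_ble_eq_true hbb) hb
        rw [this]
        simp only [cond_false]
        split_ifs <;> omega
    refine (Finset.sum_le_sum h1).trans (le_of_eq ?_)
    rw [Finset.sum_const, Finset.card_range, smul_eq_mul]
    ring
  | node a b iha ihb =>
    intro p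
    simp only [BT.len, smw]
    rw [Finset.sum_range_add]
    apply Nat.add_le_add
    · refine le_trans (le_of_eq ?_) (iha p)
      refine Finset.sum_congr rfl fun i hi => ?_
      rw [mem_range] at hi
      simp only [BT.val]
      rw [if_pos hi]
    · refine le_trans (le_of_eq ?_) (ihb (p + a.len))
      refine Finset.sum_congr rfl fun i _ => ?_
      simp only [BT.val]
      rw [if_neg (by omega)]
      have h1 : a.len + i - a.len = i := by omega
      have h2 : p + (a.len + i) + 1 = p + a.len + i + 1 := by ring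
      rw [h1, h2]

theorem stp_le (P : List (ℕ × ℕ)) (y : ℕ) : stp P y ≤ js P := by
  induction P with
  | nil => simp [stp, js]
  | cons a L ih =>
    obtain ⟨b, d⟩ := a
    simp only [stp, js]
    cases Nat.ble b y with
    | false => simp only [cond_false]; omega
    | true => simp only [cond_true]; omega

theorem phi_le (P M : List (ℕ × ℕ)) (y : ℕ) : phi P M y ≤ js P := by
  unfold phi
  exact (Nat.sub_le _ _).trans (stp_le P y)

theorem G_succ (t : BT) (i : ℕ) : t.G (i + 1) = t.val i := by simp [BT.G]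

theorem BS_le (t : BT) (X N : ℕ) (hX : 0 < X) (hN : N = t.len) :
    BS t.G X N ≤ (smw X t 0 : ℝ) / (2 * X) := by
  have hX' : (0 : ℝ) < X := by exact_mod_cast hX
  rw [le_div_iff₀ (by positivity)]
  have h1 := smw_sound X t 0
  have h2 : ((∑ i ∈ range t.len, t.val i ^ 2 * W2 X (0 + i + 1) : ℕ) : ℝ) ≤ (smw X t 0 : ℝ) := by
    exact_mod_cast h1
  refine le_trans (le_of_eq ?_) h2
  unfold BS
  rw [Finset.sum_mul, hN]
  push_cast
  refine Finset.sum_congr rfl fun i _ => ?_
  rw [G_succ, mul_assoc]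
  congr 1
  unfold wt W2
  have e : 0 + i + 1 = i + 1 := by ring
  rw [e]
  split_ifs with h
  · rw [Nat.cast_sub (by omega)]
    push_cast
    field_simp
  · push_cast
    ring

theorem lhyp_of_chkQ (w : ℕ) (t : BT) (P M : List (ℕ × ℕ)) (st : ST) (L : List (Bool × ℕ))
    (tK m K0 K XX q BC : ℕ) (hK : K0 + 1 = K) (hw : 0 < w) (ht : 2 ≤ t.len) (hXX : 0 < XX) (hq : 0 < q)
    (hchk : chkQ w t P M st L tK m K XX q BC = true) : LHyp m K := by
  subst hK
  have h1 : S_INVMUL := INVMUL_proof (MULS_proof REP_proof) CONVA_proof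
  have h3 : S_INIT := INIT_proof REP_proof SMV_proof
  have h4 : S_SEGP := SEGP_proof HPL_proof
  unfold chkQ at hchk
  simp only [Bool.and_eq_true] at hchk
  obtain ⟨hR, hcap, hchk⟩ := hchk
  have hR' : 16 * (t.len - 1) ≤ 4085 * XX := Nat.le_of_ble_eq_true hR
  have hI0 := h3 t w hw
  obtain ⟨n', X', S', E', hf, hI⟩ := go_ex h1 t.G w (t.len + 1) _ _ _ hw hI0 L 1 _ _ 0 0 hI0 hchk
  simp only [finQ, Bool.and_eq_true] at hf
  obtain ⟨hf1, hf2, hf3, hf4, hf5, hf6, hf7, hf8⟩ := hf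
  have hn : n' = K0 := by
    have := Nat.eq_of_beq_eq_true hf1
    omega
  have hS : S' + 1 < 2 ^ w := by
    have := Nat.blt_eq.mp hf2
    rwa [Nat.one_shiftLeft] at this
  have hSK : S' * t.sm2 t.len / 2 ^ tK + 1 < 2 ^ w := by
    have := Nat.blt_eq.mp hf3
    rwa [Nat.one_shiftLeft] at this
  have hSS : S' * t.sm2 t.len < 2 ^ w := by
    have := Nat.blt_eq.mp hf4
    rwa [Nat.one_shiftLeft] at this
  have htK : tK ≤ w := Nat.le_of_ble_eq_true hf5
  have hst : st.len = t.len + 1 := Nat.eq_of_beq_eq_true hf6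
  have hbc := Nat.le_of_ble_eq_true hf7
  have hlt := Nat.blt_eq.mp hf8
  subst hn
  -- one more multiplication
  have hIK := h1 t.G w (t.len + 1) n' X' S' E' (ex L 0) 1 _ _ 0 0 tK hw htK hI hI0 hSS
  have e2 : E' * t.sm2 t.len + 0 * S' + E' * 0 * (t.len + 1) = E' * t.sm2 t.len := by ring
  rw [e2] at hIK
  obtain ⟨a, hX, haS, hab⟩ := hI
  obtain ⟨b, hXK, hbS, hbb⟩ := hIK
  obtain ⟨e', he'⟩ : ∃ e', e' = ex L 0 := ⟨_, rfl⟩
  rw [← he'] at hab hbb hbc
  set XK := mulS w (t.len + 1) tK X' ((t.pkt w) <<< w) with hXKd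
  set EK := E' * t.sm2 t.len / 2 ^ tK + 2 with hEKd
  obtain ⟨hnum, -⟩ := h4 t P M st w t.len E' a hw hst (by omega)
  obtain ⟨-, hden⟩ := h4 t P M st w t.len EK b hw hst (by omega)
  rw [← hX] at hnum
  rw [← hXK] at hden
  have hup : ∑ s ∈ range (t.len + 1), AG t.G (n' + 1) s * phi P M (t.len - s) ^ 2 ≤
      2 ^ (e' + tK) * ∑ s ∈ range (t.len + 1), (b s + EK) * phi P M (t.len - s) ^ 2 := by
    rw [Finset.mul_sum]
    apply Finset.sum_le_sum
    intro s hs
    have h5 := (hbb s (Finset.mem_range.mp hs)).2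
    rw [add_zero] at h5
    calc AG t.G (n' + 1) s * phi P M (t.len - s) ^ 2
        ≤ ((b s + EK) * 2 ^ (e' + tK)) * phi P M (t.len - s) ^ 2 :=
          Nat.mul_le_mul_right _ h5
      _ = 2 ^ (e' + tK) * ((b s + EK) * phi P M (t.len - s) ^ 2) := by ring
  have hlow : 2 ^ e' * ∑ s ∈ range (t.len + 1), a s * HH t P M (t.len - s) ^ 2 ≤
      ∑ s ∈ range (t.len + 1), AG t.G n' s * HH t P M (t.len - s) ^ 2 := by
    rw [Finset.mul_sum]
    apply Finset.sum_le_sum
    intro s hs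
    have h5 := (hab s (Finset.mem_range.mp hs)).1
    calc 2 ^ e' * (a s * HH t P M (t.len - s) ^ 2)
        = (a s * 2 ^ e') * HH t P M (t.len - s) ^ 2 := by ring
      _ ≤ AG t.G n' s * HH t P M (t.len - s) ^ 2 := Nat.mul_le_mul_right _ h5
  obtain ⟨dn, hdn⟩ : ∃ dn, dn = st.denP w t.len EK P M XK 0 := ⟨_, rfl⟩
  obtain ⟨nm, hnm⟩ : ∃ nm, nm = st.numP w t.len t P M X' 0 := ⟨_, rfl⟩
  rw [← hdn] at hden hlt
  rw [← hnm] at hnum hlt
  have hDEN : ∑ s ∈ range (t.len + 1), AG t.G (n' + 1) s * phi P M (t.len - s) ^ 2 ≤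
      2 ^ e' * (dn * 2 ^ tK) := by
    refine hup.trans ((Nat.mul_le_mul_left _ hden).trans (le_of_eq ?_))
    rw [pow_add]; ring
  have hNUM : 2 ^ e' * nm ≤ ∑ s ∈ range (t.len + 1), AG t.G n' s * HH t P M (t.len - s) ^ 2 :=
    (Nat.mul_le_mul_left _ hnum).trans hlow
  have hXr : (0 : ℝ) < XX := by exact_mod_cast hXX
  have hqr : (0 : ℝ) < q := by exact_mod_cast hq
  have hq1 : (1 : ℝ) ≤ q := by exact_mod_cast hq
  have hpe : (0 : ℝ) < 2 ^ e' := by positivity
  apply gcrit2 m n' t.len XX q (js P * t.sm t.len) t.G (phi P M) hXX hq ht hR'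
  · intro n hn
    cases n with
    | zero => omega
    | succ n =>
      rw [G_succ] at hn
      have := capok_sound XX t 0 n hcap hn
      omega
  · intro y hy
    have hsm : t.sm t.len = ∑ i ∈ range t.len, t.val i := (SMV_proof t t.len).1
    calc ∑ i ∈ range y, t.G (i + 1) * phi P M (y - 1 - i)
        ≤ ∑ i ∈ range y, t.val i * js P := by
          apply Finset.sum_le_sum
          intro i _
          rw [G_succ]
          exact Nat.mul_le_mul_left _ (phi_le _ _ _)
      _ ≤ ∑ i ∈ range t.len, t.val i * js P :=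
          Finset.sum_le_sum_of_subset (Finset.range_subset_range.2 hy)
      _ = js P * t.sm t.len := by rw [← Finset.sum_mul, hsm]; ring
  · have hB : 2 ^ 48 * (((js P * t.sm t.len : ℕ) : ℝ)) ^ 2 * BS t.G XX t.len ^ n' ≤ 2 ^ e' * BC := by
      have hb1 : BS t.G XX t.len ^ n' ≤ ((smw XX t 0 : ℝ) / (2 * XX)) ^ n' := by
        apply pow_le_pow_left₀
        · unfold BS
          exact Finset.sum_nonneg fun i _ => mul_nonneg (by positivity) (wt_nonneg _ _ hXX)
        · exact BS_le t XX t.len hXX rfl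
      have hb2 : ((2 ^ 48 * (js P * t.sm t.len) ^ 2 * (smw XX t 0) ^ n' : ℕ) : ℝ) ≤
          ((BC * (2 ^ e' * (2 * XX) ^ n') : ℕ) : ℝ) := by exact_mod_cast hbc
      rw [div_pow] at hb1
      have hp : (0 : ℝ) < (2 * (XX : ℝ)) ^ n' := by positivity
      calc 2 ^ 48 * (((js P * t.sm t.len : ℕ) : ℝ)) ^ 2 * BS t.G XX t.len ^ n'
          ≤ 2 ^ 48 * (((js P * t.sm t.len : ℕ) : ℝ)) ^ 2 * ((smw XX t 0 : ℝ) ^ n' / (2 * XX) ^ n') :=
            mul_le_mul_of_nonneg_left hb1 (by positivity)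
        _ = (2 ^ 48 * (((js P * t.sm t.len : ℕ) : ℝ)) ^ 2 * (smw XX t 0 : ℝ) ^ n') / (2 * XX) ^ n' := by
            ring
        _ ≤ 2 ^ e' * BC := by
            rw [div_le_iff₀ hp]
            push_cast at hb2 ⊢
            linarith
    have hlt' : ((10 * q * (4 * m * (250 * XX)) * (dn * 2 ^ tK) + 41 * q ^ 2 * (n' + 1) * BC : ℕ) : ℝ) <
        ((10 * (q - 1) * (n' + 1) * nm : ℕ) : ℝ) := by exact_mod_cast hlt
    have hDENr : ((∑ s ∈ range (t.len + 1), AG t.G (n' + 1) s * phi P M (t.len - s) ^ 2 : ℕ) : ℝ) ≤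
        2 ^ e' * (dn * 2 ^ tK) := by exact_mod_cast hDEN
    have hNUMr : (2 : ℝ) ^ e' * nm ≤
        ((∑ s ∈ range (t.len + 1), AG t.G n' s * HH t P M (t.len - s) ^ 2 : ℕ) : ℝ) := by
      exact_mod_cast hNUM
    obtain ⟨DEN, hDd⟩ : ∃ DEN : ℝ, DEN = ((∑ s ∈ range (t.len + 1), AG t.G (n' + 1) s *
        phi P M (t.len - s) ^ 2 : ℕ) : ℝ) := ⟨_, rfl⟩
    obtain ⟨NUM, hNd⟩ : ∃ NUM : ℝ, NUM = ((∑ s ∈ range (t.len + 1), AG t.G n' s *
        HH t P M (t.len - s) ^ 2 : ℕ) : ℝ) := ⟨_, rfl⟩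
    have hHH : ((∑ s ∈ range (t.len + 1), AG t.G n' s * (∑ i ∈ range (t.len - s),
        t.G (i + 1) * phi P M (t.len - s - 1 - i)) ^ 2 : ℕ) : ℝ) = NUM := by rw [hNd]; rfl
    rw [hHH, ← hDd]
    rw [← hDd] at hDENr
    rw [← hNd] at hNUMr
    rw [Nat.cast_add, Nat.cast_mul (10 * (q - 1) * (n' + 1)), Nat.cast_mul (10 * (q - 1)),
      Nat.cast_mul 10, Nat.cast_sub hq] at hlt'
    push_cast at hlt'
    have s1 : 4 * (m : ℝ) * (250 * XX) * DEN ≤ 4 * (m : ℝ) * (250 * XX) * (2 ^ e' * (dn * 2 ^ tK)) :=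
      mul_le_mul_of_nonneg_left hDENr (by positivity)
    have s2 : 4.1 * (q : ℝ) * (n' + 1) *
        (2 ^ 48 * (((js P * t.sm t.len : ℕ) : ℝ)) ^ 2 * BS t.G XX t.len ^ n') ≤
        4.1 * (q : ℝ) * (n' + 1) * (2 ^ e' * BC) := mul_le_mul_of_nonneg_left hB (by positivity)
    have s3 : (1 - 1 / (q : ℝ)) * (n' + 1) * (2 ^ e' * nm) ≤ (1 - 1 / (q : ℝ)) * (n' + 1) * NUM := by
      apply mul_le_mul_of_nonneg_left hNUMr
      have : (1 : ℝ) / q ≤ 1 := by rw [div_le_one hqr]; exact hq1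
      have h0 : 0 ≤ 1 - (1 : ℝ) / q := by linarith
      positivity
    have s4 : 4 * (m : ℝ) * (250 * XX) * (2 ^ e' * (dn * 2 ^ tK)) +
        4.1 * (q : ℝ) * (n' + 1) * (2 ^ e' * BC) < (1 - 1 / (q : ℝ)) * (n' + 1) * (2 ^ e' * nm) := by
      have h5 := mul_lt_mul_of_pos_left hlt' (by positivity : (0 : ℝ) < 2 ^ e' / (10 * q))
      have e5 : (2 : ℝ) ^ e' / (10 * q) * (10 * q * (4 * m * (250 * XX)) * (dn * 2 ^ tK) +
          41 * q ^ 2 * (n' + 1) * BC) = 4 * (m : ℝ) * (250 * XX) * (2 ^ e' * (dn * 2 ^ tK)) +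
        4.1 * (q : ℝ) * (n' + 1) * (2 ^ e' * BC) := by
        field_simp
        ring
      have e6 : (2 : ℝ) ^ e' / (10 * q) * (10 * (q - 1) * (n' + 1) * nm) =
          (1 - 1 / (q : ℝ)) * (n' + 1) * (2 ^ e' * nm) := by
        field_simp
      rw [e5, e6] at h5
      exact h5
    have e7 : 2 ^ 48 * (((js P * t.sm t.len : ℕ) : ℝ)) ^ 2 * BS t.G XX t.len ^ n' =
      2 ^ 48 * (((js P * t.sm t.len : ℕ) : ℝ)) ^ 2 * BS t.G XX t.len ^ n' := rfl
    linarith

end Pool.Agent.H529.MP
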