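import Mathlib
import Pool.Agent.H529.MP.CKDefs

/-! H529/MP: a faster certificate: the outer profile is a tree, the inner sums are computed by one
multiplication, the numerator is bounded below by the Cauchy-Schwarz inequality on segments. -/

open Finset

namespace Pool.Agent.H529.MP

open Pool.Agent.H358R5

/-- packed values -/
def pkv (w : ℕ) : BT → ℕ
  | .leaf l v => v * rep w l
  | .node a b => pkv w a + (pkv w b) <<< (w * a.len)

/-- largest value -/
def mx : BT → ℕ
  | .leaf _ v => v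
  | .node a b => bif Nat.ble (mx a) (mx b) then mx b else mx a

/-- lower bound for `∑ a(s) h(N-1-s)^2` from the packed sequences -/
def numC (w : ℕ) : ST → ℕ → ℕ → ℕ
  | .leaf l, X, H => (((X * H) % (1 <<< (w * l))) >>> (w * (l - 1))) ^ 2 / (X % ((1 <<< w) - 1))
  | .node a b, X, H => numC w a (X % (1 <<< (w * a.len))) (H >>> (w * b.len)) +
      numC w b (X >>> (w * a.len)) (H % (1 <<< (w * b.len)))

/-- `∑ (b(s) + E) F(N-s)^2` from the packed sequence -/
def denC (w E : ℕ) : BT → ℕ → ℕ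
  | .leaf l v, X => (X % ((1 <<< w) - 1) + E * l) * v ^ 2
  | .node a b, X => denC w E b (X % (1 <<< (w * b.len))) + denC w E a (X >>> (w * b.len))

/-- the final check; `e` is the exponent of the chain, `BC` the bound for the bad cells -/
def finR (w : ℕ) (t F : BT) (st : ST) (tK tH m K X1 S1 XX q e BC n X S E : ℕ) : Bool :=
  Nat.beq (n + 1) K && (Nat.blt (S + 1) (1 <<< w) && (Nat.blt (S * S1 / 2 ^ tK + 1) (1 <<< w) &&
    (Nat.blt (S * S1) (1 <<< w) && (Nat.ble tK w && (Nat.ble tH w && (Nat.beq st.len t.len &&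
      (Nat.beq F.len (t.len + 1) && (Nat.blt (t.sm t.len * mx F) (1 <<< w) &&
      (Nat.blt (S * (t.sm t.len * mx F / 2 ^ tH)) (1 <<< w) &&
      (Nat.ble (2 ^ 48 * (mx F * t.sm t.len) ^ 2 * (smw XX t 0) ^ n) (BC * (2 ^ e * (2 * XX) ^ n)) &&
      Nat.blt (10 * q * (4 * m * (250 * XX)) *
          (denC w ((E * S1) / 2 ^ tK + 2) F (mulS w (t.len + 1) tK X X1) * 2 ^ tK) +
          41 * q ^ 2 * K * BC)
        (10 * (q - 1) * K * (numC w st (X % (1 <<< (w * t.len)))
          (mulS w t.len tH (pkv w t) (pkv w F % (1 <<< (w * t.len)))) * 2 ^ (2 * tH)))))))))))))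

/-- the certificate check -/
def chkR (w : ℕ) (t F : BT) (st : ST) (L : List (Bool × ℕ)) (tK tH m K XX q BC : ℕ) : Bool :=
  Nat.ble (16 * (t.len - 1)) (4085 * XX) && (capok XX t 0 &&
  go w (t.len + 1) ((t.pkt w) <<< w) (t.sm2 t.len)
    (finR w t F st tK tH m K ((t.pkt w) <<< w) (t.sm2 t.len) XX q (ex L 0) BC) L 1
    ((t.pkt w) <<< w) (t.sm2 t.len) 0)

end Pool.Agent.H529.MP
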