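import Mathlib
import Pool.Agent.H529.MP.CK2Defs
import Pool.Agent.H529.MP.CK

/-! H529/MP: soundness of the faster certificate check. -/

open Finset

namespace Pool.Agent.H529.MP

open Pool.Agent.H358R5

theorem pkv_eq (w : ℕ) (hw : 0 < w) (t : BT) : pkv w t = pk w t.val t.len := by
  induction t with
  | leaf l v =>
    unfold pkv pk
    rw [REP_proof w l hw, Finset.mul_sum]
    refine Finset.sum_congr rfl (fun i hi => ?_)
    rw [Finset.mem_range] at hi
    have : (BT.leaf l v).val i = v := by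
      have hi' : i < l := hi
      simp only [BT.val]
      rw [if_pos hi']
    simp only [this]
  | node a b iha ihb =>
    have e1 : pkv w (BT.node a b) = pkv w a + (pkv w b) <<< (w * a.len) := rfl
    have e2 : (BT.node a b).len = a.len + b.len := rfl
    rw [e1, e2, iha, ihb, Nat.shiftLeft_eq, SEGh.pk_append]
    congr 1
    · unfold pk
      refine Finset.sum_congr rfl (fun i hi => ?_)
      rw [Finset.mem_range] at hi
      have : (BT.node a b).val i = a.val i := by
        simp only [BT.val]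
        rw [if_pos hi]
      simp only [this]
    · rw [mul_comm]
      congr 1
      unfold pk
      refine Finset.sum_congr rfl (fun i _ => ?_)
      have : (BT.node a b).val (a.len + i) = b.val i := by
        simp only [BT.val]
        rw [if_neg (by omega), Nat.add_sub_cancel_left]
      simp only [this]

theorem val_le_mx (t : BT) : ∀ i, t.val i ≤ mx t := by
  induction t with
  | leaf l v => intro i; simp only [BT.val, mx]; split_ifs <;> omega
  | node a b iha ihb =>
    intro i
    simp only [BT.val, mx]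
    cases h : Nat.ble (mx a) (mx b) with
    | false =>
      simp only [cond_false]
      have h1 : ¬ mx a ≤ mx b := fun hh => by rw [Nat.ble_eq_true_of_le hh] at h; exact absurd h (by simp)
      split_ifs
      · exact iha i
      · exact (ihb _).trans (by omega)
    | true =>
      simp only [cond_true]
      have h1 := Nat.le_of_ble_eq_true h
      split_ifs
      · exact (iha i).trans h1
      · exact ihb _

/-! splitting packed sequences -/

theorem pk_low (w : ℕ) (a : ℕ → ℕ) (m n : ℕ) (h : ∀ i, i < m → a i < 2 ^ w) :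
    pk w a (m + n) % 2 ^ (w * m) = pk w a m := by
  rw [SEGh.pk_append, Nat.add_mul_mod_self_left, Nat.mod_eq_of_lt (SEGh.pk_lt w a m h)]

theorem pk_high (w : ℕ) (a : ℕ → ℕ) (m n : ℕ) (h : ∀ i, i < m → a i < 2 ^ w) :
    pk w a (m + n) >>> (w * m) = pk w (fun i => a (m + i)) n := by
  have hpos : 0 < 2 ^ (w * m) := by positivity
  rw [Nat.shiftRight_eq_div_pow, SEGh.pk_append, Nat.add_mul_div_left _ _ hpos,
    Nat.div_eq_of_lt (SEGh.pk_lt w a m h), zero_add]

theorem cs_nat (l : ℕ) (a h : ℕ → ℕ) : (∑ i ∈ range l, a i * h i) ^ 2 ≤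
    (∑ i ∈ range l, a i) * ∑ i ∈ range l, a i * h i ^ 2 := by
  have h1 := Finset.sum_sq_le_sum_mul_sum_of_sq_eq_mul (R := ℤ) (range l) (r := fun i => (a i : ℤ) * h i)
    (f := fun i => (a i : ℤ)) (g := fun i => (a i : ℤ) * (h i : ℤ) ^ 2) (fun i _ => by positivity)
    (fun i _ => by positivity) (fun i _ => by ring)
  exact_mod_cast h1

theorem numC_sound (w Hm : ℕ) (st : ST) : ∀ (a h : ℕ → ℕ), ∑ i ∈ range st.len, a i < 2 ^ w - 1 →
    (∀ i, h i ≤ Hm) → (∑ i ∈ range st.len, a i) * Hm < 2 ^ w → Hm < 2 ^ w →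
    numC w st (pk w a st.len) (pk w h st.len) ≤ ∑ i ∈ range st.len, a i * h (st.len - 1 - i) ^ 2 := by
  induction st with
  | leaf l =>
    intro a h hsum hh hb _
    simp only [ST.len] at hsum hb ⊢
    simp only [numC, Nat.one_shiftLeft]
    rw [SEGh.pk_mod w a l hsum]
    rcases Nat.eq_zero_or_pos l with h0 | h0
    · subst h0
      simp [pk]
    · have hconv : ∀ k, k < l → conv a h k < 2 ^ w := by
        intro k hk
        refine lt_of_le_of_lt ?_ hb
        unfold conv
        calc ∑ i ∈ range (k + 1), a i * h (k - i) ≤ ∑ i ∈ range (k + 1), a i * Hm :=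
              Finset.sum_le_sum fun i _ => Nat.mul_le_mul_left _ (hh _)
          _ ≤ ∑ i ∈ range l, a i * Hm :=
              Finset.sum_le_sum_of_subset (Finset.range_subset_range.2 (by omega))
          _ = _ := by rw [Finset.sum_mul]
      rw [MULSh.mul_mod w l a h hconv]
      obtain ⟨l', rfl⟩ : ∃ l', l = l' + 1 := ⟨l - 1, by omega⟩
      rw [Nat.add_sub_cancel, pk_high w _ l' 1 (fun i hi => hconv i (by omega))]
      have e1 : pk w (fun i => conv a h (l' + i)) 1 = conv a h l' := by simp [pk]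
      rw [e1]
      have e2 : conv a h l' = ∑ i ∈ range (l' + 1), a i * h (l' - i) := rfl
      rw [e2]
      have h3 := cs_nat (l' + 1) a (fun i => h (l' - i))
      exact Nat.div_le_of_le_mul h3
  | node u v ihu ihv =>
    intro a h hsum hh hb hHm
    simp only [ST.len] at hsum hb ⊢
    simp only [numC, Nat.one_shiftLeft]
    rw [Finset.sum_range_add] at hsum hb
    have hlt : ∀ i, i < u.len → a i < 2 ^ w := by
      intro i hi
      have h1 : a i ≤ ∑ i ∈ range u.len, a i :=
        Finset.single_le_sum (f := a) (fun _ _ => Nat.zero_le _) (Finset.mem_range.2 hi)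
      omega
    have hlth : ∀ i, i < v.len → h i < 2 ^ w := fun i _ => lt_of_le_of_lt (hh i) hHm
    have hb' : (∑ i ∈ range u.len, a i) * Hm + (∑ i ∈ range v.len, a (u.len + i)) * Hm < 2 ^ w := by
      rw [← add_mul]; exact hb
    rw [pk_low w a _ _ hlt, pk_high w a _ _ hlt]
    rw [Nat.add_comm u.len v.len, pk_low w h _ _ hlth, pk_high w h _ _ hlth]
    have h1 := ihu a (fun i => h (v.len + i)) (by omega) (fun i => hh _) (by omega) hHm
    have h2 := ihv (fun i => a (u.len + i)) h (by omega) hh (by omega) hHm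
    rw [Nat.add_comm v.len u.len, Finset.sum_range_add]
    refine Nat.add_le_add (h1.trans (le_of_eq ?_)) (h2.trans (le_of_eq ?_))
    · refine Finset.sum_congr rfl fun i hi => ?_
      rw [mem_range] at hi
      have : v.len + (u.len - 1 - i) = u.len + v.len - 1 - i := by omega
      simp only [this]
    · refine Finset.sum_congr rfl fun i hi => ?_
      rw [mem_range] at hi
      have : v.len - 1 - i = u.len + v.len - 1 - (u.len + i) := by omega
      simp only [this]

theorem denC_sound (w E : ℕ) (F : BT) : ∀ (b : ℕ → ℕ), ∑ i ∈ range F.len, b i < 2 ^ w - 1 →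
    ∑ i ∈ range F.len, (b i + E) * F.val (F.len - 1 - i) ^ 2 ≤ denC w E F (pk w b F.len) := by
  induction F with
  | leaf l v =>
    intro b hsum
    simp only [BT.len] at hsum ⊢
    simp only [denC, Nat.one_shiftLeft]
    rw [SEGh.pk_mod w b l hsum]
    have h1 : ∑ i ∈ range l, b i + E * l = ∑ i ∈ range l, (b i + E) := by
      rw [Finset.sum_add_distrib, Finset.sum_const, Finset.card_range, smul_eq_mul, mul_comm E]
    rw [h1, Finset.sum_mul]
    apply Finset.sum_le_sum
    intro i _
    apply Nat.mul_le_mul_left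
    simp only [BT.val]
    split_ifs
    · exact le_rfl
    · simp
  | node u v ihu ihv =>
    intro b hsum
    simp only [BT.len] at hsum ⊢
    simp only [denC, Nat.one_shiftLeft]
    rw [Nat.add_comm u.len v.len] at hsum ⊢
    rw [Finset.sum_range_add] at hsum
    have hlt : ∀ i, i < v.len → b i < 2 ^ w := by
      intro i hi
      have h1 : b i ≤ ∑ i ∈ range v.len, b i :=
        Finset.single_le_sum (f := b) (fun _ _ => Nat.zero_le _) (Finset.mem_range.2 hi)
      omega
    rw [pk_low w b _ _ hlt, pk_high w b _ _ hlt]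
    have h1 := ihv b (by omega)
    have h2 := ihu (fun i => b (v.len + i)) (by omega)
    rw [Finset.sum_range_add]
    refine Nat.add_le_add (le_trans (le_of_eq ?_) h1) (le_trans (le_of_eq ?_) h2)
    · refine Finset.sum_congr rfl fun i hi => ?_
      rw [mem_range] at hi
      have e : v.len + u.len - 1 - i - u.len = v.len - 1 - i := by omega
      simp only [BT.val]
      rw [if_neg (by omega), e]
    · refine Finset.sum_congr rfl fun i hi => ?_
      rw [mem_range] at hi
      have e : v.len + u.len - 1 - (v.len + i) = u.len - 1 - i := by omega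
      simp only [BT.val]
      rw [e, if_pos (by omega)]

theorem conv_eq (t F : BT) (y : ℕ) (hy : 0 < y) :
    ∑ i ∈ range y, t.G (i + 1) * F.val (y - 1 - i) = conv t.val F.val (y - 1) := by
  unfold conv
  have : y - 1 + 1 = y := by omega
  rw [this]
  refine Finset.sum_congr rfl fun i _ => ?_
  rw [G_succ]

theorem lhyp_of_chkR (w : ℕ) (t F : BT) (st : ST) (L : List (Bool × ℕ))
    (tK tH m K0 K XX q BC : ℕ) (hK : K0 + 1 = K) (hw : 0 < w) (ht : 2 ≤ t.len) (hXX : 0 < XX) (hq : 0 < q)
    (hchk : chkR w t F st L tK tH m K XX q BC = true) : LHyp m K := by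
  subst hK
  have h1 : S_INVMUL := INVMUL_proof (MULS_proof REP_proof) CONVA_proof
  have h3 : S_INIT := INIT_proof REP_proof SMV_proof
  have hM : S_MULS := MULS_proof REP_proof
  unfold chkR at hchk
  simp only [Bool.and_eq_true] at hchk
  obtain ⟨hR, hcap, hchk⟩ := hchk
  have hR' : 16 * (t.len - 1) ≤ 4085 * XX := Nat.le_of_ble_eq_true hR
  have hI0 := h3 t w hw
  obtain ⟨n', X', S', E', hf, hI⟩ := go_ex h1 t.G w (t.len + 1) _ _ _ hw hI0 L 1 _ _ 0 0 hI0 hchk
  simp only [finR, Bool.and_eq_true] at hf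
  obtain ⟨hf1, hf2, hf3, hf4, hf5, hf6, hf7, hf8, hf9, hf10, hf11, hf12⟩ := hf
  have hn : n' = K0 := by
    have := Nat.eq_of_beq_eq_true hf1
    omega
  have hS : S' + 1 < 2 ^ w := by
    have := Nat.blt_eq.mp hf2
    rwa [Nat.one_shiftLeft] at this
  have hSK : S' * t.sm2 t.len / 2 ^ tK + 1 < 2 ^ w := by
    have := Nat.blt_eq.mp hf3
    rwa [Nat.one_shiftLeft] at this
  have hSS : S' * t.sm2 t.len < 2 ^ w := by
    have := Nat.blt_eq.mp hf4
    rwa [Nat.one_shiftLeft] at this
  have htK : tK ≤ w := Nat.le_of_ble_eq_true hf5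
  have htH : tH ≤ w := Nat.le_of_ble_eq_true hf6
  have hst : st.len = t.len := Nat.eq_of_beq_eq_true hf7
  have hFl : F.len = t.len + 1 := Nat.eq_of_beq_eq_true hf8
  have hcv : t.sm t.len * mx F < 2 ^ w := by
    have := Nat.blt_eq.mp hf9
    rwa [Nat.one_shiftLeft] at this
  have hsh : S' * (t.sm t.len * mx F / 2 ^ tH) < 2 ^ w := by
    have := Nat.blt_eq.mp hf10
    rwa [Nat.one_shiftLeft] at this
  have hbc := Nat.le_of_ble_eq_true hf11
  have hlt := Nat.blt_eq.mp hf12
  subst hn
  -- one more multiplication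
  have hIK := h1 t.G w (t.len + 1) n' X' S' E' (ex L 0) 1 _ _ 0 0 tK hw htK hI hI0 hSS
  have e2 : E' * t.sm2 t.len + 0 * S' + E' * 0 * (t.len + 1) = E' * t.sm2 t.len := by ring
  rw [e2] at hIK
  obtain ⟨a, hX, haS, hab⟩ := hI
  obtain ⟨b, hXK, hbS, hbb⟩ := hIK
  obtain ⟨e', he'⟩ : ∃ e', e' = ex L 0 := ⟨_, rfl⟩
  rw [← he'] at hab hbb hbc
  set XK := mulS w (t.len + 1) tK X' ((t.pkt w) <<< w) with hXKd
  set EK := E' * t.sm2 t.len / 2 ^ tK + 2 with hEKd
  have hsm : t.sm t.len = ∑ i ∈ range t.len, t.val i := (SMV_proof t t.len).1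
  -- the packed inner sums
  have hcvk : ∀ k, k < t.len → conv t.val F.val k ≤ t.sm t.len * mx F := by
    intro k hk
    unfold conv
    calc ∑ i ∈ range (k + 1), t.val i * F.val (k - i) ≤ ∑ i ∈ range (k + 1), t.val i * mx F :=
          Finset.sum_le_sum fun i _ => Nat.mul_le_mul_left _ (val_le_mx F _)
      _ ≤ ∑ i ∈ range t.len, t.val i * mx F :=
          Finset.sum_le_sum_of_subset (Finset.range_subset_range.2 (by omega))
      _ = _ := by rw [← Finset.sum_mul, hsm]
  have hFlt : ∀ i, i < t.len → F.val i < 2 ^ w := by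
    intro i hi
    by_cases hz : t.sm t.len = 0
    · -- all values vanish, the left side of the check is zero
      exfalso
      have hm2 : t.sm2 t.len = 0 := by
        rw [(SMV_proof t t.len).2]
        rw [hsm] at hz
        have hz' := Finset.sum_eq_zero_iff.1 hz
        exact Finset.sum_eq_zero fun i hi => by rw [hz' i hi]; rfl
      have hSz : ∑ i ∈ range (t.len + 1), a i ≤ S' := haS
      -- then `numC = 0`
      have hgz : ∀ i, t.val i = 0 := by
        intro i
        by_cases hi : i < t.len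
        · rw [hsm] at hz
          exact Finset.sum_eq_zero_iff.1 hz i (mem_range.2 hi)
        · exact val_ge t i (by omega)
      have hpt : pkv w t = 0 := by
        rw [pkv_eq w hw]
        unfold pk
        exact Finset.sum_eq_zero fun i _ => by rw [hgz i]; simp
      have hHz : mulS w t.len tH (pkv w t) (pkv w F % 1 <<< (w * t.len)) = 0 := by
        rw [hpt]
        unfold mulS
        simp
      rw [hHz] at hlt
      have hnz : ∀ (s : ST) (Y : ℕ), numC w s Y 0 = 0 := by
        intro s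
        induction s with
        | leaf l => intro Y; simp [numC]
        | node u v ihu ihv => intro Y; simp [numC, ihu, ihv]
      rw [hnz] at hlt
      simp at hlt
    · have h5 : F.val i ≤ mx F := val_le_mx F i
      have h6 : mx F ≤ t.sm t.len * mx F := Nat.le_mul_of_pos_left _ (Nat.pos_of_ne_zero hz)
      omega
  have hHpk : mulS w t.len tH (pkv w t) (pkv w F % 1 <<< (w * t.len)) =
      pk w (fun k => conv t.val F.val k / 2 ^ tH) t.len := by
    rw [pkv_eq w hw, pkv_eq w hw, Nat.one_shiftLeft, hFl, pk_low w _ _ _ hFlt]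
    exact hM w t.len tH t.val F.val hw htH (fun k hk => lt_of_le_of_lt (hcvk k hk) hcv)
  rw [hHpk] at hlt
  have haS' : ∑ i ∈ range t.len, a i ≤ S' := by
    refine le_trans ?_ haS
    exact Finset.sum_le_sum_of_subset (Finset.range_subset_range.2 (by omega))
  have hXlow : X' % 1 <<< (w * t.len) = pk w a t.len := by
    rw [Nat.one_shiftLeft, hX]
    apply pk_low
    intro i hi
    have h5 : a i ≤ ∑ i ∈ range t.len, a i :=
      Finset.single_le_sum (f := a) (fun _ _ => Nat.zero_le _) (Finset.mem_range.2 hi)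
    omega
  rw [hXlow] at hlt
  -- a version of the quotients which is bounded everywhere
  obtain ⟨h, hhd⟩ : ∃ h : ℕ → ℕ, ∀ k, h k = if k < t.len then conv t.val F.val k / 2 ^ tH else 0 :=
    ⟨_, fun _ => rfl⟩
  have hpkh : pk w (fun k => conv t.val F.val k / 2 ^ tH) t.len = pk w h t.len := by
    apply MULSh.pk_congr
    intro k hk
    rw [hhd, if_pos hk]
  rw [hpkh] at hlt
  have hnum : numC w st (pk w a t.len) (pk w h t.len) ≤
      ∑ i ∈ range t.len, a i * h (t.len - 1 - i) ^ 2 := by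
    have := numC_sound w (t.sm t.len * mx F / 2 ^ tH) st a h (by rw [hst]; omega) ?_ ?_ ?_
    · rw [hst] at this
      exact this
    · intro i
      rw [hhd]
      split_ifs with hi
      · exact Nat.div_le_div_right (hcvk i hi)
      · exact Nat.zero_le _
    · rw [hst]
      exact lt_of_le_of_lt (Nat.mul_le_mul_right _ haS') hsh
    · exact lt_of_le_of_lt (Nat.div_le_self _ _) hcv
  have hden : ∑ i ∈ range (t.len + 1), (b i + EK) * F.val (t.len - i) ^ 2 ≤ denC w EK F XK := by
    have := denC_sound w EK F b (by rw [hFl]; omega)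
    rw [hFl, Nat.add_sub_cancel] at this
    rw [hXK]
    exact this
  have hup : ∑ s ∈ range (t.len + 1), AG t.G (n' + 1) s * F.val (t.len - s) ^ 2 ≤
      2 ^ (e' + tK) * ∑ s ∈ range (t.len + 1), (b s + EK) * F.val (t.len - s) ^ 2 := by
    rw [Finset.mul_sum]
    apply Finset.sum_le_sum
    intro s hs
    have h5 := (hbb s (Finset.mem_range.mp hs)).2
    rw [add_zero] at h5
    calc AG t.G (n' + 1) s * F.val (t.len - s) ^ 2
        ≤ ((b s + EK) * 2 ^ (e' + tK)) * F.val (t.len - s) ^ 2 :=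
          Nat.mul_le_mul_right _ h5
      _ = 2 ^ (e' + tK) * ((b s + EK) * F.val (t.len - s) ^ 2) := by ring
  have hlow : 2 ^ e' * (2 ^ (2 * tH) * ∑ i ∈ range t.len, a i * h (t.len - 1 - i) ^ 2) ≤
      ∑ s ∈ range (t.len + 1), AG t.G n' s *
        (∑ i ∈ range (t.len - s), t.G (i + 1) * F.val (t.len - s - 1 - i)) ^ 2 := by
    rw [Finset.sum_range_succ, Finset.mul_sum, Finset.mul_sum]
    refine le_trans ?_ (Nat.le_add_right _ _)
    apply Finset.sum_le_sum
    intro s hs
    rw [mem_range] at hs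
    have h5 := (hab s (by omega)).1
    have h6 : 2 ^ tH * h (t.len - 1 - s) ≤
        ∑ i ∈ range (t.len - s), t.G (i + 1) * F.val (t.len - s - 1 - i) := by
      rw [conv_eq t F (t.len - s) (by omega), hhd, if_pos (by omega)]
      have : t.len - s - 1 = t.len - 1 - s := by omega
      rw [this]
      exact Nat.mul_div_le _ _
    calc 2 ^ e' * (2 ^ (2 * tH) * (a s * h (t.len - 1 - s) ^ 2))
        = (a s * 2 ^ e') * (2 ^ tH * h (t.len - 1 - s)) ^ 2 := by
          rw [mul_pow, ← pow_mul, mul_comm tH 2]; ring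
      _ ≤ AG t.G n' s * (∑ i ∈ range (t.len - s), t.G (i + 1) * F.val (t.len - s - 1 - i)) ^ 2 :=
          Nat.mul_le_mul h5 (Nat.pow_le_pow_left h6 2)
  obtain ⟨dn, hdn⟩ : ∃ dn, dn = denC w EK F XK := ⟨_, rfl⟩
  obtain ⟨nm, hnm⟩ : ∃ nm, nm = numC w st (pk w a t.len) (pk w h t.len) * 2 ^ (2 * tH) := ⟨_, rfl⟩
  rw [← hdn] at hden hlt
  rw [← hnm] at hlt
  have hDEN : ∑ s ∈ range (t.len + 1), AG t.G (n' + 1) s * F.val (t.len - s) ^ 2 ≤
      2 ^ e' * (dn * 2 ^ tK) := by
    refine hup.trans ((Nat.mul_le_mul_left _ hden).trans (le_of_eq ?_))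
    rw [pow_add]; ring
  have hNUM : 2 ^ e' * nm ≤ ∑ s ∈ range (t.len + 1), AG t.G n' s *
        (∑ i ∈ range (t.len - s), t.G (i + 1) * F.val (t.len - s - 1 - i)) ^ 2 := by
    refine le_trans ?_ hlow
    apply Nat.mul_le_mul_left
    rw [hnm, mul_comm]
    exact Nat.mul_le_mul_left _ hnum
  have hXr : (0 : ℝ) < XX := by exact_mod_cast hXX
  have hqr : (0 : ℝ) < q := by exact_mod_cast hq
  have hq1 : (1 : ℝ) ≤ q := by exact_mod_cast hq
  have hpe : (0 : ℝ) < 2 ^ e' := by positivity
  apply gcrit2 m n' t.len XX q (mx F * t.sm t.len) t.G F.val hXX hq ht hR'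
  · intro n hn
    cases n with
    | zero => omega
    | succ n =>
      rw [G_succ] at hn
      have := capok_sound XX t 0 n hcap hn
      omega
  · intro y hy
    calc ∑ i ∈ range y, t.G (i + 1) * F.val (y - 1 - i)
        ≤ ∑ i ∈ range y, t.val i * mx F := by
          apply Finset.sum_le_sum
          intro i _
          rw [G_succ]
          exact Nat.mul_le_mul_left _ (val_le_mx _ _)
      _ ≤ ∑ i ∈ range t.len, t.val i * mx F :=
          Finset.sum_le_sum_of_subset (Finset.range_subset_range.2 hy)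
      _ = mx F * t.sm t.len := by rw [← Finset.sum_mul, hsm]; ring
  · have hB : 2 ^ 48 * (((mx F * t.sm t.len : ℕ) : ℝ)) ^ 2 * BS t.G XX t.len ^ n' ≤ 2 ^ e' * BC := by
      have hb1 : BS t.G XX t.len ^ n' ≤ ((smw XX t 0 : ℝ) / (2 * XX)) ^ n' := by
        apply pow_le_pow_left₀
        · unfold BS
          exact Finset.sum_nonneg fun i _ => mul_nonneg (by positivity) (wt_nonneg _ _ hXX)
        · exact BS_le t XX t.len hXX rfl
      have hb2 : ((2 ^ 48 * (mx F * t.sm t.len) ^ 2 * (smw XX t 0) ^ n' : ℕ) : ℝ) ≤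
          ((BC * (2 ^ e' * (2 * XX) ^ n') : ℕ) : ℝ) := by exact_mod_cast hbc
      rw [div_pow] at hb1
      have hp : (0 : ℝ) < (2 * (XX : ℝ)) ^ n' := by positivity
      calc 2 ^ 48 * (((mx F * t.sm t.len : ℕ) : ℝ)) ^ 2 * BS t.G XX t.len ^ n'
          ≤ 2 ^ 48 * (((mx F * t.sm t.len : ℕ) : ℝ)) ^ 2 * ((smw XX t 0 : ℝ) ^ n' / (2 * XX) ^ n') :=
            mul_le_mul_of_nonneg_left hb1 (by positivity)
        _ = (2 ^ 48 * (((mx F * t.sm t.len : ℕ) : ℝ)) ^ 2 * (smw XX t 0 : ℝ) ^ n') / (2 * XX) ^ n' := by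
            ring
        _ ≤ 2 ^ e' * BC := by
            rw [div_le_iff₀ hp]
            push_cast at hb2 ⊢
            linarith
    have hlt' : ((10 * q * (4 * m * (250 * XX)) * (dn * 2 ^ tK) + 41 * q ^ 2 * (n' + 1) * BC : ℕ) : ℝ) <
        ((10 * (q - 1) * (n' + 1) * nm : ℕ) : ℝ) := by exact_mod_cast hlt
    have hDENr : ((∑ s ∈ range (t.len + 1), AG t.G (n' + 1) s * F.val (t.len - s) ^ 2 : ℕ) : ℝ) ≤
        2 ^ e' * (dn * 2 ^ tK) := by exact_mod_cast hDEN
    have hNUMr : (2 : ℝ) ^ e' * nm ≤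
        ((∑ s ∈ range (t.len + 1), AG t.G n' s *
          (∑ i ∈ range (t.len - s), t.G (i + 1) * F.val (t.len - s - 1 - i)) ^ 2 : ℕ) : ℝ) := by
      exact_mod_cast hNUM
    obtain ⟨DEN, hDd⟩ : ∃ DEN : ℝ, DEN = ((∑ s ∈ range (t.len + 1), AG t.G (n' + 1) s *
        F.val (t.len - s) ^ 2 : ℕ) : ℝ) := ⟨_, rfl⟩
    obtain ⟨NUM, hNd⟩ : ∃ NUM : ℝ, NUM = ((∑ s ∈ range (t.len + 1), AG t.G n' s *
        (∑ i ∈ range (t.len - s), t.G (i + 1) * F.val (t.len - s - 1 - i)) ^ 2 : ℕ) : ℝ) := ⟨_, rfl⟩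
    rw [← hNd, ← hDd]
    rw [← hDd] at hDENr
    rw [← hNd] at hNUMr
    rw [Nat.cast_add, Nat.cast_mul (10 * (q - 1) * (n' + 1)), Nat.cast_mul (10 * (q - 1)),
      Nat.cast_mul 10, Nat.cast_sub hq] at hlt'
    push_cast at hlt'
    have s1 : 4 * (m : ℝ) * (250 * XX) * DEN ≤ 4 * (m : ℝ) * (250 * XX) * (2 ^ e' * (dn * 2 ^ tK)) :=
      mul_le_mul_of_nonneg_left hDENr (by positivity)
    have s2 : 4.1 * (q : ℝ) * (n' + 1) *
        (2 ^ 48 * (((mx F * t.sm t.len : ℕ) : ℝ)) ^ 2 * BS t.G XX t.len ^ n') ≤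
        4.1 * (q : ℝ) * (n' + 1) * (2 ^ e' * BC) := mul_le_mul_of_nonneg_left hB (by positivity)
    have s3 : (1 - 1 / (q : ℝ)) * (n' + 1) * (2 ^ e' * nm) ≤ (1 - 1 / (q : ℝ)) * (n' + 1) * NUM := by
      apply mul_le_mul_of_nonneg_left hNUMr
      have : (1 : ℝ) / q ≤ 1 := by rw [div_le_one hqr]; exact hq1
      have h0 : 0 ≤ 1 - (1 : ℝ) / q := by linarith
      positivity
    have s4 : 4 * (m : ℝ) * (250 * XX) * (2 ^ e' * (dn * 2 ^ tK)) +
        4.1 * (q : ℝ) * (n' + 1) * (2 ^ e' * BC) < (1 - 1 / (q : ℝ)) * (n' + 1) * (2 ^ e' * nm) := by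
      have h5 := mul_lt_mul_of_pos_left hlt' (by positivity : (0 : ℝ) < 2 ^ e' / (10 * q))
      have e5 : (2 : ℝ) ^ e' / (10 * q) * (10 * q * (4 * m * (250 * XX)) * (dn * 2 ^ tK) +
          41 * q ^ 2 * (n' + 1) * BC) = 4 * (m : ℝ) * (250 * XX) * (2 ^ e' * (dn * 2 ^ tK)) +
        4.1 * (q : ℝ) * (n' + 1) * (2 ^ e' * BC) := by
        field_simp
        ring
      have e6 : (2 : ℝ) ^ e' / (10 * q) * (10 * (q - 1) * (n' + 1) * nm) =
          (1 - 1 / (q : ℝ)) * (n' + 1) * (2 ^ e' * nm) := by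
        field_simp
      rw [e5, e6] at h5
      exact h5
    linarith

end Pool.Agent.H529.MP
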