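import Pool.Graph.R_seed8.H358R5.Stubs4

/-! H529/MP: certificate data. -/

namespace Pool.Agent.H529.MP.Dat

open Pool.Agent.H358R5

def bt0 : BT := (.node (.node (.node (.node (.node (.leaf 1 6413043) (.leaf 1 6344086)) (.node (.leaf 1 6276596) (.leaf 1 6210526))) (.node (.node (.leaf 1 6145833) (.leaf 1 6082474)) (.node (.leaf 1 6020408) (.leaf 1 5959596)))) (.node (.node (.node (.leaf 1 5900000) (.leaf 1 5841584)) (.node (.leaf 1 5784314) (.leaf 1 5728155))) (.node (.node (.leaf 1 5673077) (.leaf 1 5619048)) (.node (.leaf 1 5566038) (.leaf 1 5514019))))) (.node (.node (.node (.node (.leaf 1 5462963) (.leaf 1 5412844)) (.node (.leaf 1 5363636) (.leaf 1 5315315))) (.node (.node (.leaf 1 5267857) (.leaf 1 5221239)) (.node (.leaf 1 5175439) (.leaf 1 5130435)))) (.node (.node (.node (.leaf 1 5086207) (.leaf 1 5042735)) (.node (.leaf 1 5000000) (.leaf 1 4957983))) (.node (.node (.leaf 1 4916667) (.leaf 1 4876033)) (.node (.leaf 1 4836066) (.leaf 1 4796748))))))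
def bt1 : BT := (.node (.node (.node (.node (.node (.leaf 1 4758065) (.leaf 1 4720000)) (.node (.leaf 1 4682540) (.leaf 1 4645669))) (.node (.node (.leaf 1 4609375) (.leaf 1 4573643)) (.node (.leaf 1 4538462) (.leaf 1 4503817)))) (.node (.node (.node (.leaf 1 4469697) (.leaf 1 4436090)) (.node (.leaf 1 4402985) (.leaf 1 4370370))) (.node (.node (.leaf 1 4338235) (.leaf 1 4306569)) (.node (.leaf 1 4275362) (.leaf 1 4244604))))) (.node (.node (.node (.node (.leaf 1 4214286) (.leaf 1 4184397)) (.node (.leaf 1 4154930) (.leaf 1 4125874))) (.node (.node (.leaf 1 4097222) (.leaf 1 4068966)) (.node (.leaf 1 4041096) (.leaf 1 4013605)))) (.node (.node (.node (.leaf 1 3986486) (.leaf 1 3959732)) (.node (.leaf 1 3933333) (.leaf 1 3907285))) (.node (.node (.leaf 1 3881579) (.leaf 1 3856209)) (.node (.leaf 1 3831169) (.leaf 1 3806452))))))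
def bt2 : BT := (.node (.node (.node (.node (.node (.leaf 1 3782051) (.leaf 1 3757962)) (.node (.leaf 1 3734177) (.leaf 1 3710692))) (.node (.node (.leaf 1 3687500) (.leaf 1 3664596)) (.node (.leaf 1 3641975) (.leaf 1 3619632)))) (.node (.node (.node (.leaf 1 3597561) (.leaf 1 3575758)) (.node (.leaf 1 3554217) (.leaf 1 3532934))) (.node (.node (.leaf 1 3511905) (.leaf 1 3491124)) (.node (.leaf 1 3470588) (.leaf 1 3450292))))) (.node (.node (.node (.node (.leaf 1 3430233) (.leaf 1 3410405)) (.node (.leaf 1 3390805) (.leaf 1 3371429))) (.node (.node (.leaf 1 3352273) (.leaf 1 3333333)) (.node (.leaf 1 3314607) (.leaf 1 3296089)))) (.node (.node (.node (.leaf 1 3277778) (.leaf 1 3259669)) (.node (.leaf 1 3241758) (.leaf 1 3224044))) (.node (.node (.leaf 1 3206522) (.leaf 1 3189189)) (.node (.leaf 1 3172043) (.leaf 1 3155080))))))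
def bt3 : BT := (.node (.node (.node (.node (.node (.leaf 1 3138298) (.leaf 1 3121693)) (.node (.leaf 1 3105263) (.leaf 1 3089005))) (.node (.node (.leaf 1 3072917) (.leaf 1 3056995)) (.node (.leaf 1 3041237) (.leaf 1 3025641)))) (.node (.node (.node (.leaf 1 3010204) (.leaf 1 2994924)) (.node (.leaf 1 2979798) (.leaf 1 2964824))) (.node (.node (.leaf 1 2950000) (.leaf 1 2935323)) (.node (.leaf 1 2920792) (.leaf 1 2906404))))) (.node (.node (.node (.node (.leaf 1 2892157) (.leaf 1 2878049)) (.node (.leaf 1 2864078) (.leaf 1 2850242))) (.node (.node (.leaf 1 2836538) (.leaf 1 2822967)) (.node (.leaf 1 2809524) (.leaf 1 2796209)))) (.node (.node (.node (.leaf 1 2783019) (.leaf 1 2769953)) (.node (.leaf 1 2757009) (.leaf 1 2744186))) (.node (.node (.leaf 1 2731481) (.leaf 1 2718894)) (.node (.leaf 1 2706422) (.leaf 1 2694064))))))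
def bt4 : BT := (.node (.node (.node (.node (.node (.leaf 1 2681818) (.leaf 1 2669683)) (.node (.leaf 1 2657658) (.leaf 1 2645740))) (.node (.node (.leaf 1 2633929) (.leaf 1 2622222)) (.node (.leaf 1 2610619) (.leaf 1 2599119)))) (.node (.node (.node (.leaf 1 2587719) (.leaf 1 2576419)) (.node (.leaf 1 2565217) (.leaf 1 2554113))) (.node (.node (.leaf 1 2543103) (.leaf 1 2532189)) (.node (.leaf 1 2521368) (.leaf 1 2510638))))) (.node (.node (.node (.node (.leaf 1 2500000) (.leaf 1 2489451)) (.node (.leaf 1 2478992) (.leaf 1 2468619))) (.node (.node (.leaf 1 2458333) (.leaf 2 2443064)) (.node (.leaf 2 2422998) (.leaf 2 2403259)))) (.node (.node (.node (.leaf 2 2383838) (.leaf 2 2364729)) (.node (.leaf 2 2345924) (.leaf 2 2327416))) (.node (.node (.leaf 2 2309198) (.leaf 2 2291262)) (.node (.leaf 2 2273603) (.leaf 2 2256214))))))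
def bt5 : BT := (.node (.node (.node (.node (.node (.leaf 2 2239089) (.leaf 2 2222222)) (.node (.leaf 2 2205607) (.leaf 2 2189239))) (.node (.node (.leaf 2 2173112) (.leaf 2 2157221)) (.node (.leaf 2 2141561) (.leaf 2 2126126)))) (.node (.node (.node (.leaf 2 2110912) (.leaf 2 2095915)) (.node (.leaf 2 2081129) (.leaf 2 2066550))) (.node (.node (.leaf 2 2052174) (.leaf 2 2037997)) (.node (.leaf 2 2024014) (.leaf 2 2010221))))) (.node (.node (.node (.node (.leaf 2 1996616) (.leaf 2 1983193)) (.node (.leaf 2 1969950) (.leaf 2 1956882))) (.node (.node (.leaf 2 1943987) (.leaf 2 1931260)) (.node (.leaf 2 1918699) (.leaf 2 1906300)))) (.node (.node (.node (.leaf 2 1894061) (.leaf 2 1881978)) (.node (.leaf 2 1870048) (.leaf 2 1858268))) (.node (.node (.leaf 2 1846635) (.leaf 2 1835148)) (.node (.leaf 2 1823802) (.leaf 2 1812596))))))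
def bt6 : BT := (.node (.node (.node (.node (.node (.leaf 2 1801527) (.leaf 2 1790592)) (.node (.leaf 2 1779789) (.leaf 2 1769115))) (.node (.node (.leaf 2 1758569) (.leaf 2 1748148)) (.node (.leaf 2 1737850) (.leaf 2 1727672)))) (.node (.node (.node (.leaf 2 1717613) (.leaf 2 1707670)) (.node (.leaf 2 1697842) (.leaf 2 1688126))) (.node (.node (.leaf 2 1678521) (.leaf 2 1669024)) (.node (.leaf 2 1659634) (.leaf 2 1650350))))) (.node (.node (.node (.node (.leaf 2 1641168) (.leaf 3 1629834)) (.node (.leaf 3 1616438) (.leaf 3 1603261))) (.node (.node (.leaf 3 1590296) (.leaf 3 1577540)) (.node (.leaf 3 1564987) (.leaf 3 1552632)))) (.node (.node (.node (.leaf 3 1540470) (.leaf 3 1528497)) (.node (.leaf 3 1516710) (.leaf 3 1505102))) (.node (.node (.leaf 3 1493671) (.leaf 3 1482412)) (.node (.leaf 3 1471322) (.leaf 3 1460396))))))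
def bt7 : BT := (.node (.node (.node (.node (.node (.leaf 3 1449631) (.leaf 3 1439024)) (.node (.leaf 3 1428571) (.leaf 3 1418269))) (.node (.node (.leaf 3 1408115) (.leaf 3 1398104)) (.node (.leaf 3 1388235) (.leaf 3 1378505)))) (.node (.node (.node (.leaf 3 1368910) (.leaf 3 1359447)) (.node (.leaf 3 1350114) (.leaf 3 1340909))) (.node (.node (.leaf 3 1331828) (.leaf 3 1322870)) (.node (.leaf 3 1314031) (.leaf 3 1305310))))) (.node (.node (.node (.node (.leaf 3 1296703) (.leaf 3 1288210)) (.node (.leaf 3 1279826) (.leaf 3 1271552))) (.node (.node (.leaf 3 1263383) (.leaf 3 1255319)) (.node (.leaf 3 1247357) (.leaf 3 1239496)))) (.node (.node (.node (.leaf 3 1231733) (.leaf 4 1222798)) (.node (.leaf 4 1212744) (.leaf 4 1202854))) (.node (.node (.leaf 4 1193124) (.leaf 4 1183551)) (.node (.leaf 4 1174129) (.leaf 4 1164857))))))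
def bt8 : BT := (.node (.node (.node (.node (.node (.leaf 4 1155730) (.leaf 4 1146744)) (.node (.leaf 4 1137898) (.leaf 4 1129187))) (.node (.node (.leaf 4 1120608) (.leaf 4 1112158)) (.node (.leaf 4 1103835) (.leaf 4 1095636)))) (.node (.node (.node (.leaf 4 1087558) (.leaf 4 1079597)) (.node (.leaf 4 1071753) (.leaf 4 1064022))) (.node (.node (.leaf 4 1056401) (.leaf 4 1048889)) (.node (.leaf 4 1041483) (.leaf 4 1034181))))) (.node (.node (.node (.node (.leaf 4 1026980) (.leaf 4 1019879)) (.node (.leaf 4 1012876) (.leaf 4 1005968))) (.node (.node (.leaf 4 999153) (.leaf 4 992431)) (.node (.leaf 4 985798) (.leaf 5 978441)))) (.node (.node (.node (.leaf 5 970395) (.leaf 5 962480)) (.node (.leaf 5 954693) (.leaf 5 947030))) (.node (.node (.leaf 5 939490) (.leaf 5 932070)) (.node (.leaf 5 924765) (.leaf 5 917574))))))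
def bt9 : BT := (.node (.node (.node (.node (.node (.leaf 5 910494) (.leaf 5 903522)) (.node (.leaf 5 896657) (.leaf 5 889894))) (.node (.node (.leaf 5 883234) (.leaf 5 876672)) (.node (.leaf 5 870206) (.leaf 5 863836)))) (.node (.node (.node (.leaf 5 857558) (.leaf 5 851371)) (.node (.leaf 5 845272) (.leaf 5 839260))) (.node (.node (.leaf 5 833333) (.leaf 5 827489)) (.node (.leaf 5 821727) (.leaf 6 815480))))) (.node (.node (.node (.node (.leaf 6 808773) (.leaf 6 802175)) (.node (.leaf 6 795684) (.leaf 6 789298))) (.node (.node (.leaf 6 783013) (.leaf 6 776827)) (.node (.leaf 6 770738) (.leaf 6 764744)))) (.node (.node (.node (.leaf 6 758842) (.leaf 6 753031)) (.node (.leaf 6 747308) (.leaf 6 741672))) (.node (.node (.leaf 6 736120) (.leaf 6 730650)) (.node (.leaf 6 725261) (.leaf 6 719951))))))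
def bt10 : BT := (.node (.node (.node (.node (.node (.leaf 6 714718) (.leaf 6 709561)) (.node (.leaf 6 704478) (.leaf 7 699052))) (.node (.node (.leaf 7 693302) (.leaf 7 687646)) (.node (.leaf 7 682081) (.leaf 7 676606)))) (.node (.node (.node (.leaf 7 671217) (.leaf 7 665914)) (.node (.leaf 7 660694) (.leaf 7 655556))) (.node (.node (.leaf 7 650496) (.leaf 7 645514)) (.node (.leaf 7 640608) (.leaf 7 635776))))) (.node (.node (.node (.node (.leaf 7 631016) (.leaf 7 626327)) (.node (.leaf 7 621707) (.leaf 7 617155))) (.node (.node (.leaf 7 612669) (.leaf 8 607934)) (.node (.leaf 8 602964) (.leaf 8 598074)))) (.node (.node (.node (.leaf 8 593263) (.leaf 8 588529)) (.node (.leaf 8 583869) (.leaf 8 579283))) (.node (.node (.leaf 8 574769) (.leaf 8 570324)) (.node (.leaf 8 565947) (.leaf 8 561637))))))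
def bt11 : BT := (.node (.node (.node (.node (.node (.leaf 8 557393) (.leaf 8 553211)) (.node (.leaf 8 549093) (.leaf 8 545035))) (.node (.node (.leaf 9 540788) (.leaf 9 536364)) (.node (.leaf 9 532011) (.leaf 9 527728)))) (.node (.node (.node (.leaf 9 523514) (.leaf 9 519366)) (.node (.leaf 9 515284) (.leaf 9 511265))) (.node (.node (.leaf 9 507309) (.leaf 9 503413)) (.node (.leaf 9 499577) (.leaf 9 495798))))) (.node (.node (.node (.node (.leaf 9 492077) (.leaf 10 488209)) (.node (.leaf 10 484202) (.leaf 10 480260))) (.node (.node (.leaf 10 476383) (.leaf 10 472567)) (.node (.leaf 10 468812) (.leaf 10 465116)))) (.node (.node (.node (.leaf 10 461478) (.leaf 10 457897)) (.node (.leaf 10 454370) (.leaf 10 450898))) (.node (.node (.leaf 10 447478) (.leaf 11 443943)) (.node (.leaf 11 440299) (.leaf 11 436714))))))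
def bt12 : BT := (.node (.node (.node (.node (.node (.leaf 11 433186) (.leaf 11 429716)) (.node (.leaf 11 426301) (.leaf 11 422939))) (.node (.node (.leaf 11 419630) (.leaf 11 416373)) (.node (.leaf 11 413165) (.leaf 11 410007)))) (.node (.node (.node (.leaf 12 406756) (.leaf 12 403419)) (.node (.leaf 12 400136) (.leaf 12 396905))) (.node (.node (.leaf 12 393727) (.leaf 12 390599)) (.node (.leaf 12 387521) (.leaf 12 384490))))) (.node (.node (.node (.node (.leaf 12 381507) (.leaf 12 378569)) (.node (.leaf 13 375557) (.leaf 13 372475))) (.node (.node (.leaf 13 369443) (.leaf 13 366460)) (.node (.leaf 13 363524) (.leaf 13 360636)))) (.node (.node (.node (.leaf 13 357793) (.leaf 13 354994)) (.node (.leaf 13 352239) (.leaf 14 349423))) (.node (.node (.leaf 14 346549) (.leaf 14 343723)) (.node (.leaf 14 340942) (.leaf 14 338206))))))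
def bt13 : BT := (.node (.node (.node (.node (.node (.leaf 14 335513) (.leaf 14 332863)) (.node (.leaf 14 330255) (.leaf 14 327687))) (.node (.node (.leaf 15 325069) (.leaf 15 322404)) (.node (.leaf 15 319783) (.leaf 15 317204)))) (.node (.node (.node (.leaf 15 314667) (.leaf 15 312169)) (.node (.leaf 15 309711) (.leaf 15 307292))) (.node (.node (.leaf 16 304831) (.leaf 16 302332)) (.node (.leaf 16 299873) (.leaf 16 297454))))) (.node (.node (.node (.node (.leaf 16 295074) (.leaf 16 292731)) (.node (.leaf 16 290426) (.leaf 16 288156))) (.node (.node (.leaf 17 285853) (.leaf 17 283518)) (.node (.leaf 17 281220) (.leaf 17 278960)))) (.node (.node (.node (.leaf 17 276735) (.leaf 17 274546)) (.node (.leaf 17 272392) (.leaf 18 270208))) (.node (.node (.leaf 18 267999) (.leaf 18 265826)) (.node (.leaf 18 263687) (.leaf 18 261583))))))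
def bt14 : BT := (.node (.node (.node (.node (.node (.leaf 18 259512) (.leaf 19 257417)) (.node (.leaf 19 255301) (.leaf 19 253219))) (.node (.node (.leaf 19 251171) (.leaf 19 249155)) (.node (.leaf 19 247172) (.leaf 19 245220)))) (.node (.node (.node (.leaf 20 243249) (.leaf 20 241259)) (.node (.leaf 20 239302) (.leaf 20 237377))) (.node (.node (.leaf 20 235482) (.leaf 20 233617)) (.node (.leaf 21 231736) (.leaf 21 229840))))) (.node (.node (.node (.node (.leaf 21 227975) (.leaf 21 226140)) (.node (.leaf 21 224335) (.leaf 22 222516))) (.node (.node (.leaf 22 220684) (.leaf 22 218883)) (.node (.leaf 22 217111) (.leaf 22 215368)))) (.node (.node (.node (.leaf 22 213652) (.leaf 23 211925)) (.node (.leaf 23 210189) (.leaf 23 208481))) (.node (.node (.leaf 23 206800) (.leaf 23 205146)) (.node (.leaf 24 203483) (.leaf 24 201813))))))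
def bt15 : BT := (.node (.node (.node (.node (.node (.leaf 24 200170) (.leaf 24 198553)) (.node (.leaf 24 196962) (.leaf 25 195364))) (.node (.node (.leaf 25 193760) (.leaf 25 192182)) (.node (.leaf 25 190630) (.leaf 25 189103)))) (.node (.node (.node (.leaf 26 187570) (.leaf 26 186032)) (.node (.leaf 26 184519) (.leaf 26 183031))) (.node (.node (.leaf 26 181566) (.leaf 27 180098)) (.node (.leaf 27 178625) (.leaf 27 177177))))) (.node (.node (.node (.node (.leaf 27 175752) (.leaf 28 174324)) (.node (.leaf 28 172894) (.leaf 28 171487))) (.node (.node (.leaf 28 170102) (.leaf 29 168716)) (.node (.leaf 29 167328) (.leaf 29 165963)))) (.node (.node (.node (.leaf 29 164621) (.leaf 29 163299)) (.node (.leaf 30 161977) (.leaf 30 160654))) (.node (.node (.leaf 30 159352) (.leaf 30 158071)) (.node (.leaf 31 156790) (.leaf 31 155509))))))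
def bt16 : BT := (.node (.node (.node (.node (.node (.leaf 31 154248) (.leaf 32 152988)) (.node (.leaf 32 151729) (.leaf 32 150491))) (.node (.node (.leaf 32 149273) (.leaf 33 148055)) (.node (.leaf 33 146839) (.leaf 33 145643)))) (.node (.node (.node (.leaf 33 144466) (.leaf 34 143291)) (.node (.leaf 34 142117) (.leaf 34 140963))) (.node (.node (.leaf 35 139810) (.leaf 35 138660)) (.node (.leaf 35 137529) (.leaf 35 136416))))) (.node (.node (.node (.node (.leaf 36 135306) (.leaf 36 134198)) (.node (.leaf 36 133108) (.leaf 37 132021))) (.node (.node (.leaf 37 130937) (.leaf 37 129870)) (.node (.leaf 38 128807) (.leaf 38 127747)))) (.node (.node (.node (.leaf 38 126705) (.leaf 38 125679)) (.node (.leaf 39 124657) (.leaf 39 123638))) (.node (.node (.leaf 39 122636) (.leaf 40 121637)) (.node (.leaf 40 120642) (.leaf 40 119663))))))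
def bt17 : BT := (.node (.node (.node (.node (.node (.leaf 41 118688) (.leaf 41 117717)) (.node (.leaf 41 116762) (.leaf 42 115811))) (.node (.node (.leaf 42 114864) (.leaf 42 113933)) (.node (.leaf 43 113005) (.leaf 43 112082)))) (.node (.node (.node (.leaf 44 111163) (.leaf 44 110249)) (.node (.leaf 44 109350) (.leaf 45 108456))) (.node (.node (.leaf 45 107566) (.leaf 45 106691)) (.node (.leaf 46 105820) (.leaf 46 104954))))) (.node (.node (.node (.node (.leaf 47 104093) (.leaf 47 103237)) (.node (.leaf 47 102395) (.leaf 48 101558))) (.node (.node (.leaf 48 100726) (.leaf 49 99898)) (.node (.leaf 49 99076) (.leaf 49 98268)))) (.node (.node (.node (.leaf 50 97464) (.leaf 50 96666)) (.node (.leaf 51 95873) (.leaf 51 95085))) (.node (.node (.leaf 51 94309) (.leaf 52 93539)) (.node (.leaf 52 92775) (.leaf 53 92015))))))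
def bt18 : BT := (.node (.node (.node (.node (.node (.leaf 53 91261) (.leaf 54 90512)) (.node (.leaf 54 89768) (.leaf 54 89036))) (.node (.node (.leaf 55 88310) (.leaf 55 87589)) (.node (.leaf 56 86873) (.leaf 56 86163)))) (.node (.node (.node (.leaf 57 85458) (.leaf 57 84758)) (.node (.leaf 58 84064) (.leaf 58 83375))) (.node (.node (.leaf 59 82691) (.leaf 59 82013)) (.node (.leaf 60 81340) (.leaf 60 80673))))) (.node (.node (.node (.node (.leaf 61 80011) (.leaf 61 79354)) (.node (.leaf 62 78703) (.leaf 62 78058))) (.node (.node (.leaf 63 77418) (.leaf 63 76783)) (.node (.leaf 64 76154) (.leaf 64 75530)))) (.node (.node (.node (.leaf 65 74911) (.leaf 65 74298)) (.node (.leaf 66 73690) (.leaf 66 73088))) (.node (.node (.leaf 67 72490) (.leaf 68 71894)) (.node (.leaf 43 71411) (.leaf 69 70931))))))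
def bt19 : BT := (.node (.node (.node (.node (.node (.leaf 69 70347) (.leaf 70 69769)) (.node (.leaf 70 69196) (.leaf 71 68629))) (.node (.node (.leaf 71 68066) (.leaf 72 67510)) (.node (.leaf 73 66954) (.leaf 73 66404)))) (.node (.node (.node (.leaf 74 65859) (.leaf 74 65320)) (.node (.leaf 75 64785) (.leaf 76 64253))) (.node (.node (.leaf 76 63725) (.leaf 77 63203)) (.node (.leaf 78 62683) (.leaf 78 62167))))) (.node (.node (.node (.node (.leaf 79 61657) (.leaf 80 61149)) (.node (.leaf 80 60647) (.leaf 81 60149))) (.node (.node (.leaf 82 59653) (.leaf 82 59163)) (.node (.leaf 83 58677) (.leaf 84 58194)))) (.node (.node (.node (.leaf 84 57716) (.leaf 85 57243)) (.node (.leaf 86 56772) (.leaf 86 56306))) (.node (.node (.leaf 87 55845) (.leaf 88 55386)) (.node (.leaf 89 54930) (.leaf 89 54478))))))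
def bt20 : BT := (.node (.node (.node (.node (.node (.leaf 90 54032) (.leaf 91 53588)) (.node (.leaf 92 53146) (.leaf 92 52709))) (.node (.node (.leaf 93 52277) (.leaf 94 51848)) (.node (.leaf 95 51421) (.leaf 96 50996)))) (.node (.node (.node (.leaf 96 50576) (.leaf 97 50162)) (.node (.leaf 98 49749) (.leaf 99 49339))) (.node (.node (.leaf 100 48932) (.leaf 100 48530)) (.node (.leaf 101 48132) (.leaf 102 47737))))) (.node (.node (.node (.node (.leaf 103 47344) (.leaf 104 46954)) (.node (.leaf 105 46567) (.leaf 106 46182))) (.node (.node (.leaf 106 45802) (.leaf 107 45427)) (.node (.leaf 108 45054) (.leaf 109 44683)))) (.node (.node (.node (.leaf 110 44316) (.leaf 111 43951)) (.node (.leaf 112 43589) (.leaf 113 43230))) (.node (.node (.leaf 114 42873) (.leaf 115 42519)) (.node (.leaf 116 42168) (.leaf 117 41820))))))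
def bt21 : BT := (.node (.node (.node (.node (.node (.leaf 118 41475) (.leaf 119 41132)) (.node (.leaf 120 40792) (.leaf 121 40455))) (.node (.node (.leaf 122 40121) (.leaf 123 39790)) (.node (.leaf 124 39461) (.leaf 125 39135)))) (.node (.node (.node (.leaf 126 38812) (.leaf 127 38492)) (.node (.leaf 128 38174) (.leaf 129 37859))) (.node (.node (.leaf 130 37547) (.leaf 131 37238)) (.node (.leaf 132 36932) (.leaf 133 36628))))) (.node (.node (.node (.node (.leaf 134 36327) (.leaf 135 36028)) (.node (.leaf 137 35732) (.leaf 138 35436))) (.node (.node (.leaf 139 35144) (.leaf 140 34855)) (.node (.leaf 141 34568) (.leaf 142 34283)))) (.node (.node (.node (.leaf 144 34001) (.leaf 145 33720)) (.node (.leaf 146 33442) (.leaf 147 33167))) (.node (.node (.leaf 148 32894) (.leaf 150 32623)) (.node (.leaf 151 32354) (.leaf 152 32087))))))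
def bt22 : BT := (.node (.node (.node (.node (.node (.leaf 153 31823) (.leaf 155 31561)) (.node (.leaf 156 31301) (.leaf 157 31043))) (.node (.node (.leaf 159 30787) (.leaf 160 30533)) (.node (.leaf 161 30281) (.leaf 163 30032)))) (.node (.node (.node (.leaf 164 29784) (.leaf 165 29538)) (.node (.leaf 167 29295) (.leaf 168 29053))) (.node (.node (.leaf 169 28814) (.leaf 171 28577)) (.node (.leaf 172 28342) (.leaf 174 28108))))) (.node (.node (.node (.node (.leaf 175 27876) (.leaf 177 27646)) (.node (.leaf 178 27418) (.leaf 180 27192))) (.node (.node (.leaf 181 26968) (.leaf 183 26745)) (.node (.leaf 184 26525) (.leaf 186 26306)))) (.node (.node (.node (.leaf 187 26089) (.leaf 189 25874)) (.node (.leaf 190 25661) (.leaf 192 25449))) (.node (.node (.leaf 193 25240) (.leaf 195 25032)) (.node (.leaf 197 24825) (.leaf 198 24621))))))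
def bt23 : BT := (.node (.node (.node (.node (.node (.leaf 200 24418) (.leaf 202 24217)) (.node (.leaf 203 24017) (.leaf 205 23819))) (.node (.node (.leaf 207 23623) (.leaf 208 23428)) (.node (.leaf 210 23235) (.leaf 212 23044)))) (.node (.node (.node (.leaf 214 22854) (.leaf 216 22665)) (.node (.leaf 217 22478) (.leaf 219 22293))) (.node (.node (.leaf 221 22109) (.leaf 223 21927)) (.node (.leaf 225 21746) (.leaf 227 21566))))) (.node (.node (.node (.node (.leaf 228 21388) (.leaf 230 21212)) (.node (.leaf 232 21037) (.leaf 234 20864))) (.node (.node (.leaf 236 20692) (.leaf 238 20521)) (.node (.leaf 240 20352) (.leaf 242 20184)))) (.node (.node (.node (.leaf 244 20018) (.leaf 246 19853)) (.node (.leaf 248 19689) (.leaf 250 19527))) (.node (.node (.leaf 252 19366) (.leaf 254 19207)) (.node (.leaf 257 19048) (.leaf 259 18891))))))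
def bt24 : BT := (.node (.node (.node (.node (.node (.leaf 261 18735) (.leaf 263 18580)) (.node (.leaf 265 18427) (.leaf 267 18275))) (.node (.node (.leaf 270 18125) (.leaf 272 17975)) (.node (.leaf 274 17827) (.leaf 276 17680)))) (.node (.node (.node (.leaf 279 17534) (.leaf 281 17389)) (.node (.leaf 283 17246) (.leaf 286 17104))) (.node (.node (.leaf 288 16963) (.leaf 291 16823)) (.node (.leaf 293 16684) (.leaf 295 16546))))) (.node (.node (.node (.node (.leaf 298 16410) (.leaf 300 16274)) (.node (.leaf 303 16140) (.leaf 305 16007))) (.node (.node (.leaf 308 15875) (.leaf 310 15744)) (.node (.leaf 313 15614) (.leaf 316 15485)))) (.node (.node (.node (.leaf 318 15358) (.leaf 321 15231)) (.node (.leaf 324 15105) (.leaf 326 14981))) (.node (.node (.leaf 329 14857) (.leaf 332 14734)) (.node (.leaf 335 14613) (.leaf 337 14492))))))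
def bt25 : BT := (.node (.node (.node (.node (.node (.leaf 340 14373) (.leaf 343 14254)) (.node (.leaf 346 14136) (.leaf 349 14020))) (.node (.node (.leaf 352 13904) (.leaf 355 13789)) (.node (.leaf 358 13675) (.leaf 361 13562)))) (.node (.node (.node (.leaf 364 13450) (.leaf 367 13339)) (.node (.leaf 370 13229) (.leaf 373 13119))) (.node (.node (.leaf 376 13011) (.leaf 379 12904)) (.node (.leaf 382 12797) (.leaf 385 12691))))) (.node (.node (.node (.node (.leaf 389 12587) (.leaf 392 12483)) (.node (.leaf 395 12380) (.leaf 398 12277))) (.node (.node (.leaf 402 12176) (.leaf 405 12076)) (.node (.leaf 408 11976) (.leaf 412 11877)))) (.node (.node (.node (.leaf 415 11779) (.leaf 419 11682)) (.node (.leaf 422 11585) (.leaf 426 11490))) (.node (.node (.leaf 429 11395) (.leaf 433 11301)) (.node (.leaf 436 11207) (.leaf 440 11115))))))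
def bt26 : BT := (.node (.node (.node (.node (.node (.leaf 444 11023) (.leaf 447 10932)) (.node (.leaf 451 10842) (.leaf 455 10752))) (.node (.node (.leaf 459 10664) (.leaf 462 10576)) (.node (.leaf 466 10488) (.leaf 470 10402)))) (.node (.node (.node (.leaf 474 10316) (.leaf 478 10231)) (.node (.leaf 482 10146) (.leaf 486 10063))) (.node (.node (.leaf 490 9980) (.leaf 494 9897)) (.node (.leaf 498 9816) (.leaf 502 9735))))) (.node (.node (.node (.node (.leaf 507 9654) (.leaf 511 9575)) (.node (.leaf 515 9495) (.leaf 519 9417))) (.node (.node (.leaf 524 9339) (.leaf 528 9262)) (.node (.leaf 533 9186) (.leaf 537 9110)))) (.node (.node (.node (.leaf 541 9035) (.leaf 546 8960)) (.node (.leaf 551 8886) (.leaf 555 8813))) (.node (.node (.leaf 560 8740) (.leaf 564 8668)) (.node (.leaf 569 8596) (.leaf 574 8525))))))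
def bt27 : BT := (.node (.node (.node (.node (.node (.leaf 579 8455) (.leaf 583 8385)) (.node (.leaf 588 8316) (.leaf 593 8247))) (.node (.node (.leaf 598 8179) (.leaf 603 8112)) (.node (.leaf 608 8045) (.leaf 613 7978)))) (.node (.node (.node (.leaf 618 7912) (.leaf 623 7847)) (.node (.leaf 629 7782) (.leaf 634 7718))) (.node (.node (.leaf 639 7654) (.leaf 645 7591)) (.node (.leaf 650 7528) (.leaf 655 7466))))) (.node (.node (.node (.node (.leaf 661 7404) (.leaf 666 7343)) (.node (.leaf 672 7283) (.leaf 677 7223))) (.node (.node (.leaf 683 7163) (.leaf 689 7104)) (.node (.leaf 694 7045) (.leaf 700 6987)))) (.node (.node (.node (.leaf 706 6929) (.leaf 712 6872)) (.node (.leaf 718 6815) (.leaf 724 6759))) (.node (.node (.leaf 730 6703) (.leaf 736 6648)) (.node (.leaf 742 6593) (.leaf 748 6538))))))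
def bt28 : BT := (.node (.node (.node (.node (.node (.leaf 755 6484) (.leaf 761 6431)) (.node (.leaf 767 6378) (.leaf 774 6325))) (.node (.node (.leaf 780 6273) (.leaf 787 6221)) (.node (.leaf 793 6170) (.leaf 800 6119)))) (.node (.node (.node (.leaf 806 6068) (.leaf 813 6018)) (.node (.leaf 820 5968) (.leaf 827 5919))) (.node (.node (.leaf 834 5870) (.leaf 841 5822)) (.node (.leaf 848 5773) (.leaf 855 5726))))) (.node (.node (.node (.node (.leaf 862 5678) (.leaf 869 5632)) (.node (.leaf 876 5585) (.leaf 883 5539))) (.node (.node (.leaf 891 5493) (.leaf 898 5448)) (.node (.leaf 906 5403) (.leaf 913 5358)))) (.node (.node (.node (.leaf 921 5314) (.leaf 929 5270)) (.node (.leaf 936 5226) (.leaf 944 5183))) (.node (.node (.leaf 952 5141) (.leaf 960 5098)) (.node (.leaf 968 5056) (.leaf 976 5014))))))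
def bt29 : BT := (.node (.node (.node (.node (.node (.leaf 984 4973) (.leaf 992 4932)) (.node (.leaf 1001 4891) (.leaf 1009 4851))) (.node (.node (.leaf 1017 4810) (.leaf 1026 4771)) (.node (.leaf 1034 4731) (.leaf 1043 4692)))) (.node (.node (.node (.leaf 1052 4653) (.leaf 1060 4615)) (.node (.leaf 1069 4577) (.leaf 1078 4539))) (.node (.node (.leaf 1087 4502) (.leaf 1096 4464)) (.node (.leaf 1105 4428) (.leaf 1115 4391))))) (.node (.node (.node (.node (.leaf 1124 4355) (.leaf 1133 4319)) (.node (.leaf 1143 4283) (.leaf 1152 4248))) (.node (.node (.leaf 1162 4213) (.leaf 1171 4178)) (.node (.leaf 1181 4143) (.leaf 1191 4109)))) (.node (.node (.node (.leaf 1201 4075) (.leaf 1211 4041)) (.node (.leaf 1221 4008) (.leaf 1231 3975))) (.node (.node (.leaf 1242 3942) (.leaf 1252 3910)) (.node (.leaf 1262 3877) (.leaf 1273 3845))))))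
def bt30 : BT := (.node (.node (.node (.node (.node (.leaf 1283 3813) (.leaf 1294 3782)) (.node (.leaf 1305 3751) (.leaf 1316 3720))) (.node (.node (.leaf 1327 3689) (.leaf 1338 3659)) (.node (.leaf 1349 3628) (.leaf 1360 3598)))) (.node (.node (.node (.leaf 1372 3569) (.leaf 1383 3539)) (.node (.leaf 1394 3510) (.leaf 1406 3481))) (.node (.node (.leaf 1418 3452) (.leaf 1430 3424)) (.node (.leaf 1442 3395) (.leaf 1454 3367))))) (.node (.node (.node (.node (.leaf 1466 3339) (.leaf 1478 3312)) (.node (.leaf 1490 3284) (.leaf 1503 3257))) (.node (.node (.leaf 1515 3230) (.leaf 1528 3204)) (.node (.leaf 1541 3177) (.leaf 1553 3151)))) (.node (.node (.node (.leaf 1566 3125) (.leaf 1579 3099)) (.node (.leaf 1593 3074) (.leaf 1606 3048))) (.node (.node (.leaf 1619 3023) (.leaf 1633 2998)) (.node (.leaf 1646 2973) (.leaf 1660 2949))))))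
def bt31 : BT := (.node (.node (.node (.node (.node (.leaf 1674 2924) (.leaf 1688 2900)) (.node (.leaf 1702 2876) (.leaf 1716 2852))) (.node (.node (.leaf 1730 2829) (.leaf 1745 2805)) (.node (.leaf 1759 2782) (.leaf 1774 2759)))) (.node (.node (.node (.leaf 1789 2737) (.leaf 1804 2714)) (.node (.leaf 1819 2691) (.leaf 1834 2669))) (.node (.node (.leaf 1849 2647) (.leaf 1865 2625)) (.node (.leaf 1880 2604) (.leaf 1896 2582))))) (.node (.node (.node (.node (.leaf 1912 2561) (.leaf 1927 2540)) (.node (.leaf 1944 2519) (.leaf 1960 2498))) (.node (.node (.leaf 1976 2477) (.leaf 1993 2457)) (.node (.leaf 2009 2436) (.leaf 2026 2416)))) (.node (.node (.node (.leaf 2043 2396) (.leaf 2060 2377)) (.node (.leaf 2077 2357) (.leaf 2094 2337))) (.node (.node (.leaf 2112 2318) (.leaf 2129 2299)) (.node (.leaf 2147 2280) (.leaf 2165 2261))))))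
def bt32 : BT := (.node (.node (.node (.node (.node (.leaf 2183 2242) (.leaf 2201 2224)) (.node (.leaf 2220 2206) (.leaf 2238 2187))) (.node (.node (.leaf 2257 2169) (.leaf 2275 2151)) (.node (.leaf 2294 2134) (.leaf 2314 2116)))) (.node (.node (.node (.leaf 2333 2098) (.leaf 2352 2081)) (.node (.leaf 2372 2064) (.leaf 2392 2047))) (.node (.node (.leaf 2412 2030) (.leaf 2432 2013)) (.node (.leaf 2452 1996) (.leaf 2472 1980))))) (.node (.node (.node (.node (.leaf 2493 1964) (.leaf 2514 1947)) (.node (.leaf 2535 1931) (.leaf 2556 1915))) (.node (.node (.leaf 2577 1900) (.leaf 2599 1884)) (.node (.leaf 2620 1868) (.leaf 2642 1853)))) (.node (.node (.node (.leaf 2664 1838) (.leaf 2686 1822)) (.node (.leaf 2709 1807) (.leaf 2731 1792))) (.node (.node (.leaf 2754 1778) (.leaf 2777 1763)) (.node (.leaf 2800 1748) (.leaf 2823 1734))))))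
def bt33 : BT := (.node (.node (.node (.node (.node (.leaf 2847 1720) (.leaf 2871 1705)) (.node (.leaf 2895 1691) (.leaf 2919 1677))) (.node (.node (.leaf 2943 1663) (.leaf 2968 1650)) (.node (.leaf 2992 1636) (.leaf 3017 1622)))) (.node (.node (.node (.leaf 3042 1609) (.leaf 3068 1596)) (.node (.leaf 3093 1583) (.leaf 3119 1570))) (.node (.node (.leaf 3145 1557) (.leaf 3171 1544)) (.node (.leaf 3198 1531) (.leaf 3224 1518))))) (.node (.node (.node (.node (.leaf 3251 1506) (.leaf 3278 1493)) (.node (.leaf 3306 1481) (.leaf 3333 1469))) (.node (.node (.leaf 3361 1457) (.leaf 3389 1445)) (.node (.leaf 3417 1433) (.leaf 3446 1421)))) (.node (.node (.node (.leaf 3474 1409) (.leaf 3503 1397)) (.node (.leaf 3533 1386) (.leaf 3562 1374))) (.node (.node (.leaf 3592 1363) (.leaf 3622 1352)) (.node (.leaf 3652 1341) (.leaf 3682 1330))))))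
def bt34 : BT := (.node (.node (.node (.node (.node (.leaf 3713 1319) (.leaf 3744 1308)) (.node (.leaf 3775 1297) (.leaf 3807 1286))) (.node (.node (.leaf 3838 1275) (.leaf 3870 1265)) (.node (.leaf 3902 1254) (.leaf 3935 1244)))) (.node (.node (.node (.leaf 3968 1234) (.leaf 4001 1224)) (.node (.leaf 4034 1214) (.leaf 4068 1204))) (.node (.node (.leaf 4102 1194) (.leaf 4136 1184)) (.node (.leaf 4170 1174) (.leaf 4205 1164))))) (.node (.node (.node (.node (.leaf 4240 1155) (.leaf 4275 1145)) (.node (.leaf 4311 1136) (.leaf 4347 1126))) (.node (.node (.leaf 4383 1117) (.leaf 4420 1108)) (.node (.leaf 4457 1099) (.leaf 4494 1089)))) (.node (.node (.node (.leaf 4531 1080) (.leaf 4569 1072)) (.node (.leaf 4607 1063) (.leaf 4645 1054))) (.node (.node (.leaf 4684 1045) (.leaf 4723 1037)) (.node (.leaf 4763 1028) (.leaf 4802 1019))))))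
def bt35 : BT := (.node (.node (.node (.node (.node (.leaf 4842 1011) (.leaf 4883 1003)) (.leaf 4923 994)) (.node (.leaf 4964 986) (.leaf 5006 978))) (.node (.node (.node (.leaf 5047 970) (.leaf 5089 962)) (.leaf 5132 954)) (.node (.leaf 5175 946) (.leaf 5218 938)))) (.node (.node (.node (.node (.leaf 5261 931) (.leaf 5305 923)) (.leaf 5349 915)) (.node (.leaf 5394 908) (.leaf 5439 900))) (.node (.node (.node (.leaf 5484 893) (.leaf 5530 885)) (.leaf 5576 878)) (.node (.leaf 4258 872) (.leaf 1412609 0)))))
def bt : BT := (.node (.node (.node (.node (.node (.node bt0 bt1) bt2) (.node bt3 bt4)) (.node (.node bt5 bt6) (.node bt7 bt8))) (.node (.node (.node (.node bt9 bt10) bt11) (.node bt12 bt13)) (.node (.node bt14 bt15) (.node bt16 bt17)))) (.node (.node (.node (.node (.node bt18 bt19) bt20) (.node bt21 bt22)) (.node (.node bt23 bt24) (.node bt25 bt26))) (.node (.node (.node (.node bt27 bt28) bt29) (.node bt30 bt31)) (.node (.node bt32 bt33) (.node bt34 bt35)))))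

def ft0 : BT := (.node (.node (.node (.node (.node (.leaf 38 30024) (.leaf 41 30217)) (.node (.leaf 42 30395) (.leaf 45 30562))) (.node (.node (.leaf 46 30721) (.leaf 49 30873)) (.node (.leaf 51 31021) (.leaf 53 31165)))) (.node (.node (.node (.leaf 55 31305) (.leaf 59 31444)) (.node (.leaf 61 31582) (.leaf 63 31717))) (.node (.node (.leaf 67 31852) (.leaf 70 31987)) (.node (.leaf 73 32121) (.leaf 76 32255))))) (.node (.node (.node (.node (.leaf 80 32389) (.leaf 84 32524)) (.node (.leaf 88 32660) (.leaf 91 32796))) (.node (.node (.leaf 96 32933) (.leaf 100 33071)) (.node (.leaf 105 33210) (.leaf 110 33351)))) (.node (.node (.node (.leaf 115 33493) (.leaf 120 33636)) (.node (.leaf 126 33781) (.leaf 132 33928))) (.node (.node (.leaf 137 34076) (.leaf 144 34226)) (.node (.leaf 151 34379) (.leaf 158 34533))))))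
def ft1 : BT := (.node (.node (.node (.node (.node (.leaf 165 34690) (.leaf 173 34849)) (.node (.leaf 180 35010) (.leaf 189 35174))) (.node (.node (.leaf 198 35340) (.leaf 207 35509)) (.node (.leaf 217 35681) (.leaf 226 35856)))) (.node (.node (.node (.leaf 237 36033) (.leaf 248 36213)) (.node (.leaf 260 36397) (.leaf 272 36585))) (.node (.node (.leaf 284 36775) (.leaf 297 36968)) (.node (.leaf 311 37166) (.leaf 326 37367))))) (.node (.node (.node (.node (.leaf 340 37571) (.leaf 357 37780)) (.node (.leaf 373 37992) (.leaf 390 38209))) (.node (.node (.leaf 408 38429) (.leaf 427 38654)) (.node (.leaf 447 38883) (.leaf 468 39117)))) (.node (.node (.node (.leaf 489 39355) (.leaf 512 39598)) (.node (.leaf 535 39845) (.leaf 561 40098))) (.node (.node (.leaf 586 40356) (.leaf 614 40619)) (.node (.leaf 642 40887) (.leaf 672 41161))))))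
def ft2 : BT := (.node (.node (.node (.node (.node (.leaf 703 41440) (.leaf 735 41725)) (.node (.leaf 770 42015) (.leaf 805 42312))) (.node (.node (.leaf 842 42614) (.leaf 882 42922)) (.node (.leaf 922 43237) (.leaf 965 43558)))) (.node (.node (.node (.leaf 1010 43886) (.leaf 1056 44220)) (.node (.leaf 1106 44561) (.leaf 1156 44908))) (.node (.node (.leaf 1211 45262) (.leaf 1266 45624)) (.node (.leaf 1325 45992) (.leaf 1386 46367))))) (.node (.node (.node (.node (.leaf 1451 46750) (.leaf 1517 47140)) (.node (.leaf 1588 47537) (.leaf 1662 47941))) (.node (.node (.leaf 1738 48353) (.leaf 1820 48772)) (.node (.leaf 1903 49198) (.leaf 1991 49631)))) (.node (.node (.node (.leaf 2084 50072) (.leaf 2180 50520)) (.node (.leaf 2282 50974) (.leaf 2387 51436))) (.node (.node (.leaf 2497 51904) (.leaf 2613 52379)) (.node (.leaf 2735 52860) (.leaf 2861 53347))))))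
def ft3 : BT := (.node (.node (.node (.node (.node (.leaf 2993 53839) (.leaf 3132 54336)) (.node (.leaf 3277 54838) (.leaf 3429 55345))) (.node (.node (.leaf 3588 55854) (.leaf 3754 56367)) (.node (.leaf 3928 56881) (.leaf 4110 57397)))) (.node (.node (.node (.leaf 4300 57913) (.leaf 4500 58429)) (.node (.leaf 4707 58942) (.leaf 4926 59452))) (.node (.node (.leaf 5154 59957) (.leaf 5393 60455)) (.node (.leaf 5643 60946) (.leaf 5904 61427))))) (.node (.node (.node (.node (.leaf 6177 61895) (.leaf 6464 62349)) (.node (.leaf 6763 62786) (.leaf 7077 63203))) (.node (.node (.leaf 7404 63598) (.leaf 7747 63967)) (.node (.leaf 8106 64308) (.leaf 8481 64615)))) (.node (.node (.node (.leaf 8875 64885) (.leaf 9285 65115)) (.node (.leaf 9715 65300) (.leaf 10166 65435))) (.node (.node (.leaf 10636 65515) (.leaf 11130 65536)) (.node (.leaf 11644 65491) (.leaf 12184 65376))))))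
def ft4 : BT := (.node (.node (.node (.node (.node (.leaf 12749 65185) (.leaf 13339 64912)) (.node (.leaf 13957 64551) (.leaf 14603 64097))) (.node (.node (.leaf 15280 63544) (.leaf 15987 62886)) (.node (.leaf 16729 62119) (.leaf 17503 61238)))) (.node (.node (.node (.leaf 18313 60239) (.leaf 19163 59119)) (.node (.leaf 20049 57874) (.leaf 20979 56503))) (.node (.node (.leaf 21950 55007) (.leaf 22967 53385)) (.node (.leaf 24031 51639) (.leaf 25144 49774))))) (.node (.node (.node (.node (.leaf 26309 47791) (.leaf 27528 45696)) (.node (.leaf 28802 43487) (.leaf 30137 41148))) (.node (.node (.leaf 31533 38552) (.leaf 32993 35721)) (.node (.leaf 34522 32785) (.leaf 36121 29802)))) (.node (.node (.node (.leaf 37794 26820) (.leaf 39544 23885)) (.node (.leaf 41377 21039) (.leaf 43293 18323))) (.node (.node (.leaf 45299 15769) (.leaf 47396 13402)) (.node (.leaf 49593 11242) (.leaf 51889 9274))))))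
def ft5 : BT := (.leaf 920271 0)
def ft : BT := (.node (.node (.node ft0 ft1) ft2) (.node (.node ft3 ft4) ft5))

def st0 : ST := (.node (.node (.node (.node (.node (.leaf 1096083) (.leaf 24883)) (.node (.leaf 32942) (.leaf 10230))) (.node (.node (.leaf 23546) (.leaf 10752)) (.node (.leaf 16717) (.leaf 13839)))) (.node (.node (.node (.leaf 7874) (.leaf 2208)) (.node (.leaf 14308) (.leaf 10831))) (.node (.node (.leaf 7540) (.leaf 3963)) (.node (.leaf 1584) (.leaf 11307))))) (.node (.node (.node (.node (.leaf 9138) (.leaf 7056)) (.node (.leaf 4835) (.leaf 2465))) (.node (.node (.leaf 1542) (.leaf 9429)) (.node (.leaf 7906) (.leaf 6415)))) (.node (.node (.node (.leaf 4850) (.leaf 3155)) (.node (.leaf 1486) (.leaf 6513))) (.node (.node (.leaf 7547) (.leaf 6359)) (.node (.leaf 5140) (.leaf 3838))))))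
def st1 : ST := (.node (.node (.node (.node (.node (.leaf 2460) (.leaf 1169)) (.node (.leaf 6087) (.leaf 7026))) (.node (.node (.leaf 5971) (.leaf 4873)) (.node (.leaf 3699) (.leaf 2458)))) (.node (.node (.node (.leaf 1278) (.leaf 689)) (.node (.leaf 9024) (.leaf 7092))) (.node (.node (.leaf 5435) (.leaf 3936)) (.node (.leaf 2550) (.leaf 1338))))) (.node (.node (.node (.node (.leaf 526) (.leaf 8692)) (.node (.leaf 6769) (.leaf 5173))) (.node (.node (.leaf 3757) (.leaf 2468)) (.node (.leaf 1343) (.leaf 514)))) (.node (.node (.node (.leaf 8500) (.leaf 6511)) (.node (.leaf 4916) (.leaf 3538))) (.node (.node (.leaf 2309) (.leaf 1259)) (.node (.leaf 490) (.leaf 8477))))))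
def st2 : ST := (.node (.node (.node (.node (.node (.leaf 6312) (.leaf 4660)) (.node (.leaf 3281) (.leaf 2089))) (.node (.node (.leaf 1103) (.leaf 451)) (.node (.leaf 8636) (.leaf 6150)))) (.node (.node (.node (.leaf 4384) (.leaf 2977)) (.node (.leaf 1809) (.leaf 889))) (.node (.node (.leaf 4506) (.leaf 7567)) (.node (.leaf 5132) (.leaf 3439))))) (.node (.node (.node (.node (.leaf 2127) (.leaf 1105)) (.node (.leaf 447) (.leaf 9676))) (.node (.node (.leaf 5812) (.leaf 3696)) (.node (.leaf 2216) (.leaf 1127)))) (.node (.node (.node (.leaf 459) (.leaf 10626)) (.node (.leaf 5471) (.leaf 3195))) (.node (.node (.leaf 1730) (.leaf 739)) (.node (.leaf 11814) (.leaf 5022))))))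
def st3 : ST := (.node (.node (.node (.node (.node (.leaf 2639) (.leaf 1242)) (.node (.leaf 530) (.leaf 13323))) (.node (.node (.leaf 4019) (.leaf 1842)) (.node (.leaf 668) (.leaf 14849)))) (.node (.node (.node (.leaf 3021) (.leaf 1139)) (.node (.leaf 15486) (.leaf 2347))) (.node (.node (.leaf 694) (.leaf 14938)) (.node (.leaf 2143) (.leaf 4969))))) (.node (.node (.node (.node (.leaf 11257) (.leaf 942)) (.node (.leaf 6307) (.leaf 9234))) (.node (.node (.leaf 5248) (.leaf 6656)) (.node (.leaf 3704) (.leaf 4733)))) (.node (.node (.node (.leaf 5285) (.leaf 4761)) (.node (.leaf 4229) (.leaf 4499))) (.node (.node (.leaf 5830) (.leaf 3854)) (.node (.leaf 4005) (.leaf 7372))))))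
def st4 : ST := (.node (.node (.node (.node (.node (.leaf 3554) (.leaf 3697)) (.node (.leaf 5422) (.leaf 3269))) (.node (.node (.leaf 3309) (.leaf 4287)) (.node (.leaf 3044) (.leaf 3020)))) (.node (.node (.node (.leaf 3033) (.leaf 3174)) (.node (.leaf 2840) (.leaf 2792))) (.node (.node (.leaf 2722) (.leaf 2629)) (.node (.leaf 2673) (.leaf 2607))))) (.node (.node (.node (.node (.leaf 2491) (.leaf 2150)) (.node (.leaf 2543) (.leaf 2472))) (.node (.node (.leaf 2356) (.leaf 1907)) (.node (.leaf 2437) (.leaf 2367)))) (.node (.node (.node (.leaf 2264) (.leaf 2021)) (.node (.leaf 1892) (.leaf 2288))) (.node (.node (.leaf 2198) (.leaf 2041)) (.node (.leaf 1479) (.leaf 2225))))))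
def st5 : ST := (.node (.node (.node (.node (.node (.leaf 2148) (.leaf 2033)) (.node (.leaf 1782) (.leaf 1403))) (.node (.node (.leaf 2109) (.leaf 2021)) (.node (.leaf 1876) (.leaf 1495)))) (.node (.node (.node (.leaf 1930) (.leaf 1986)) (.node (.leaf 1875) (.leaf 1661))) (.node (.node (.leaf 1055) (.leaf 1968)) (.node (.leaf 1884) (.leaf 1755))))) (.node (.node (.node (.node (.leaf 1475) (.leaf 1240)) (.node (.leaf 1875) (.leaf 1780))) (.node (.node (.leaf 1622) (.leaf 1218)) (.node (.leaf 1782) (.leaf 1767)))) (.node (.node (.node (.leaf 1648) (.leaf 1409)) (.node (.leaf 917) (.leaf 1767))) (.node (.node (.leaf 1678) (.leaf 1536)) (.node (.leaf 1213) (.leaf 1447))))))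
def st6 : ST := (.node (.node (.node (.node (.node (.leaf 1669) (.leaf 1557)) (.node (.leaf 1348) (.leaf 831))) (.node (.node (.leaf 1666) (.leaf 1577)) (.node (.leaf 1438) (.leaf 1127)))) (.node (.node (.node (.leaf 1376) (.leaf 1565)) (.node (.leaf 1449) (.leaf 1226))) (.node (.node (.leaf 807) (.leaf 1562)) (.node (.leaf 1469) (.leaf 1314))))) (.node (.node (.node (.node (.leaf 939) (.leaf 1519)) (.node (.leaf 1450) (.leaf 1314))) (.node (.node (.leaf 1008) (.leaf 1354)) (.node (.leaf 1423) (.leaf 1296)))) (.node (.node (.node (.leaf 1023) (.leaf 1203)) (.node (.leaf 1395) (.leaf 1274))) (.node (.node (.leaf 1021) (.leaf 1098)) (.node (.leaf 1364) (.leaf 1246))))))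
def st7 : ST := (.node (.node (.node (.node (.node (.leaf 1001) (.leaf 1071)) (.node (.leaf 1328) (.leaf 1208))) (.node (.node (.leaf 952) (.leaf 1159)) (.node (.leaf 1281) (.leaf 1149)))) (.node (.node (.node (.leaf 841) (.leaf 1296)) (.node (.leaf 1223) (.leaf 1066))) (.node (.node (.leaf 690) (.leaf 1271)) (.node (.leaf 1175) (.leaf 993))))) (.node (.node (.node (.node (.leaf 752) (.leaf 1223)) (.node (.leaf 1115) (.leaf 883))) (.node (.node (.leaf 1091) (.leaf 1150)) (.node (.leaf 1000) (.leaf 668)))) (.node (.node (.node (.leaf 1178) (.leaf 1075)) (.node (.leaf 859) (.leaf 1047))) (.node (.node (.leaf 1092) (.leaf 932)) (.node (.leaf 727) (.leaf 1108))))))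
def st8 : ST := (.node (.node (.node (.node (.node (.leaf 990) (.leaf 696)) (.node (.leaf 1106) (.leaf 1006))) (.node (.node (.leaf 780) (.leaf 1062)) (.node (.leaf 994) (.leaf 785)))) (.node (.node (.node (.leaf 1023) (.leaf 973)) (.node (.leaf 762) (.leaf 1017))) (.node (.node (.leaf 943) (.leaf 709)) (.node (.leaf 1012) (.leaf 909))))) (.node (.node (.node (.node (.leaf 650) (.leaf 984)) (.node (.leaf 873) (.leaf 630))) (.node (.node (.leaf 954) (.leaf 832)) (.node (.leaf 680) (.leaf 914)))) (.node (.node (.node (.leaf 765) (.leaf 846)) (.node (.leaf 851) (.leaf 624))) (.node (.node (.leaf 897) (.leaf 774)) (.node (.leaf 735) (.leaf 832))))))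
def st9 : ST := (.node (.node (.node (.node (.node (.leaf 625) (.leaf 860)) (.node (.leaf 735) (.leaf 764))) (.node (.node (.leaf 774) (.leaf 614)) (.node (.leaf 802) (.leaf 630)))) (.node (.node (.node (.leaf 807) (.leaf 678)) (.node (.leaf 770) (.leaf 690))) (.node (.node (.leaf 722) (.leaf 691)) (.node (.leaf 684) (.leaf 686))))) (.node (.node (.node (.node (.leaf 661) (.leaf 674)) (.node (.leaf 654) (.leaf 653))) (.node (.node (.leaf 664) (.leaf 622)) (.node (.leaf 681) (.leaf 571)))) (.node (.node (.node (.leaf 671) (.leaf 543)) (.node (.leaf 641) (.leaf 556))) (.node (.node (.leaf 603) (.leaf 603)) (.node (.leaf 536) (.leaf 609))))))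
def st10 : ST := (.node (.node (.node (.node (.node (.leaf 532) (.leaf 557)) (.node (.leaf 583) (.leaf 505))) (.node (.node (.leaf 543) (.leaf 554)) (.node (.leaf 492) (.leaf 511)))) (.node (.node (.node (.leaf 534) (.leaf 492)) (.node (.leaf 466) (.leaf 493))) (.node (.node (.leaf 496) (.leaf 466)) (.node (.leaf 442) (.leaf 444))))) (.node (.node (.node (.node (.leaf 455) (.leaf 451)) (.node (.leaf 436) (.leaf 420))) (.node (.node (.leaf 405) (.leaf 395)) (.node (.leaf 387) (.leaf 381)))) (.node (.node (.node (.leaf 375) (.leaf 367)) (.node (.leaf 359) (.leaf 350))) (.node (.node (.leaf 341) (.leaf 333)) (.node (.leaf 325) (.leaf 317))))))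
def st11 : ST := (.node (.node (.node (.node (.node (.leaf 310) (.leaf 301)) (.node (.leaf 290) (.leaf 280))) (.node (.node (.leaf 272) (.leaf 262)) (.node (.leaf 252) (.leaf 243)))) (.node (.node (.node (.leaf 233) (.leaf 223)) (.node (.leaf 213) (.leaf 204))) (.node (.node (.leaf 194) (.leaf 184)) (.node (.leaf 174) (.leaf 164))))) (.node (.node (.node (.node (.leaf 154) (.leaf 144)) (.node (.leaf 135) (.leaf 125))) (.node (.node (.leaf 115) (.leaf 106)) (.node (.leaf 96) (.leaf 87)))) (.node (.node (.node (.leaf 79) (.leaf 70)) (.node (.leaf 62) (.leaf 53))) (.node (.node (.leaf 46) (.leaf 39)) (.leaf 32)))))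
def st : ST := (.node (.node (.node (.node st0 st1) st2) (.node (.node st3 st4) st5)) (.node (.node (.node st6 st7) st8) (.node (.node st9 st10) st11)))

def ops : List (Bool × ℕ) := [(false, 52), (false, 52), (true, 51), (false, 52), (true, 52), (false, 51), (true, 52), (false, 51), (false, 52), (false, 52), (false, 51), (false, 51), (false, 52), (false, 51), (true, 52)]

/-- parameters: w, tK, tH, m, K, XX, q, BC -/
def pars : List ℕ := [104, 52, 0, 2, 2946, 8192, 55000, 5020894379798958614185997349421056]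

end Pool.Agent.H529.MP.Dat
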