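import Pool.Agent.H529.MP.CK2Defs
import Pool.Agent.H529.MP.Dat

/-! H529/MP: the kernel check of the certificate for `K = 2946` linear forms. -/

namespace Pool.Agent.H529.MP

set_option maxRecDepth 100000 in
theorem cert : chkR 104 Dat.bt Dat.ft Dat.st Dat.ops 52 0 2 2946 8192 55000 5020894379798958614185997349421056 =
    true := by
  decide +kernel

end Pool.Agent.H529.MP
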