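import Pool.Graph.R_seed8.H358R5.Stubs4

/-! H529/MP: certificate data. -/

namespace Pool.Agent.H529.MP.DatD

open Pool.Agent.H358R5

def bt0 : BT := (.node (.node (.node (.node (.node (.leaf 1 31746032) (.leaf 1 22727273)) (.node (.leaf 1 17699115) (.leaf 1 14492754))) (.node (.node (.leaf 1 12269939) (.leaf 1 10638298)) (.node (.leaf 1 9389671) (.leaf 1 8403361)))) (.node (.node (.node (.leaf 1 7604563) (.leaf 1 6944444)) (.node (.leaf 1 6389776) (.leaf 1 5917160))) (.node (.node (.leaf 1 5509642) (.leaf 1 5154639)) (.node (.leaf 1 4842615) (.leaf 1 4566210))))) (.node (.node (.node (.node (.leaf 1 4319654) (.leaf 1 4098361)) (.node (.leaf 1 3898635) (.leaf 1 3717472))) (.node (.node (.leaf 1 3552398) (.leaf 1 3401361)) (.node (.leaf 1 3262643) (.leaf 1 3134796)))) (.node (.node (.node (.leaf 1 3016591) (.leaf 1 2906977)) (.node (.leaf 1 2805049) (.leaf 1 2710027))) (.node (.node (.leaf 1 2621232) (.leaf 1 2538071)) (.node (.leaf 1 2460025) (.leaf 1 2386635))))))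
def bt1 : BT := (.node (.node (.node (.node (.node (.leaf 1 2317497) (.leaf 1 2252252)) (.node (.leaf 1 2190581) (.leaf 1 2132196))) (.node (.node (.leaf 1 2076843) (.leaf 1 2024291)) (.node (.leaf 1 1974334) (.leaf 1 1926782)))) (.node (.node (.node (.leaf 1 1881468) (.leaf 1 1838235)) (.node (.leaf 1 1796945) (.leaf 1 1757469))) (.node (.node (.leaf 1 1719690) (.leaf 1 1683502)) (.node (.leaf 1 1648805) (.leaf 1 1615509))))) (.node (.node (.node (.node (.leaf 1 1583531) (.leaf 1 1552795)) (.node (.leaf 1 1523229) (.leaf 1 1494768))) (.node (.node (.leaf 1 1467351) (.leaf 1 1440922)) (.node (.leaf 1 1415428) (.leaf 1 1390821)))) (.node (.node (.node (.leaf 1 1367054) (.leaf 1 1344086)) (.node (.leaf 1 1321877) (.leaf 1 1300390))) (.node (.node (.leaf 1 1279591) (.leaf 1 1259446)) (.node (.leaf 1 1239926) (.leaf 1 1221001))))))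
def bt2 : BT := (.node (.node (.node (.node (.node (.leaf 1 1202646) (.leaf 1 1184834)) (.node (.leaf 1 1167542) (.leaf 1 1150748))) (.node (.node (.leaf 1 1134430) (.leaf 1 1118568)) (.node (.leaf 1 1103144) (.leaf 1 1088139)))) (.node (.node (.node (.leaf 1 1073537) (.leaf 1 1059322)) (.node (.leaf 1 1045478) (.leaf 1 1031992))) (.node (.node (.leaf 1 1018849) (.leaf 1 1006036)) (.node (.leaf 1 993542) (.leaf 1 981354))))) (.node (.node (.node (.node (.leaf 1 969462) (.leaf 1 957854)) (.node (.leaf 1 946522) (.leaf 1 935454))) (.node (.node (.leaf 1 924642) (.leaf 1 914077)) (.node (.leaf 1 903751) (.leaf 1 893655)))) (.node (.node (.node (.leaf 1 883783) (.leaf 1 874126)) (.node (.leaf 1 864678) (.leaf 1 855432))) (.node (.node (.leaf 1 846382) (.leaf 1 837521)) (.node (.leaf 1 828844) (.leaf 1 820345))))))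
def bt3 : BT := (.node (.node (.node (.node (.node (.leaf 1 812018) (.leaf 1 803859)) (.node (.leaf 1 795862) (.leaf 1 788022))) (.node (.node (.leaf 1 780336) (.leaf 1 772798)) (.node (.leaf 1 765404) (.leaf 1 758150)))) (.node (.node (.node (.leaf 1 751033) (.leaf 1 744048)) (.node (.leaf 1 737191) (.leaf 1 730460))) (.node (.node (.leaf 1 723851) (.leaf 1 717360)) (.node (.leaf 1 710985) (.leaf 1 704722))))) (.node (.node (.node (.node (.leaf 1 698568) (.leaf 1 692521)) (.node (.leaf 1 686577) (.leaf 1 680735))) (.node (.node (.leaf 1 674992) (.leaf 1 669344)) (.node (.leaf 1 663790) (.leaf 1 658328)))) (.node (.node (.node (.leaf 1 652955) (.leaf 1 647668)) (.node (.leaf 1 642467) (.leaf 1 637349))) (.node (.node (.leaf 1 632311) (.leaf 1 627353)) (.node (.leaf 1 622471) (.leaf 1 617665))))))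
def bt4 : BT := (.node (.node (.node (.node (.node (.leaf 1 612933) (.leaf 1 608273)) (.node (.leaf 1 603682) (.leaf 1 599161))) (.node (.node (.leaf 1 594707) (.leaf 1 590319)) (.node (.leaf 1 585995) (.leaf 1 581734)))) (.node (.node (.node (.leaf 1 577534) (.leaf 1 573394)) (.node (.leaf 1 569314) (.leaf 1 565291))) (.node (.node (.leaf 1 561325) (.leaf 1 557414)) (.node (.leaf 1 553557) (.leaf 1 549753))))) (.node (.node (.node (.node (.leaf 1 546001) (.leaf 1 542299)) (.node (.leaf 1 538648) (.leaf 1 535045))) (.node (.node (.leaf 1 531491) (.leaf 1 527983)) (.node (.leaf 1 524521) (.leaf 1 521105)))) (.node (.node (.node (.leaf 1 517732) (.leaf 1 514403)) (.node (.leaf 1 511117) (.leaf 1 507872))) (.node (.node (.leaf 1 504668) (.leaf 1 501505)) (.node (.leaf 1 498380) (.leaf 2 493766))))))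
def bt5 : BT := (.node (.node (.node (.node (.node (.leaf 2 487745) (.leaf 2 481870)) (.node (.leaf 2 476134) (.leaf 2 470533))) (.node (.node (.leaf 2 465062) (.leaf 2 459717)) (.node (.leaf 2 454494) (.leaf 2 449388)))) (.node (.node (.node (.leaf 2 444395) (.leaf 2 439512)) (.node (.leaf 2 434735) (.leaf 2 430061))) (.node (.node (.leaf 2 425487) (.leaf 2 421008)) (.node (.leaf 2 416623) (.leaf 2 412329))))) (.node (.node (.node (.node (.leaf 2 408122) (.leaf 2 404000)) (.node (.leaf 2 399960) (.leaf 2 396000))) (.node (.node (.leaf 2 392118) (.leaf 2 388312)) (.node (.leaf 2 384578) (.leaf 2 380916)))) (.node (.node (.node (.leaf 2 377323) (.leaf 2 373797)) (.node (.leaf 2 370336) (.leaf 2 366939))) (.node (.node (.leaf 2 363603) (.leaf 2 360328)) (.node (.leaf 2 357111) (.leaf 2 353951))))))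
def bt6 : BT := (.node (.node (.node (.node (.node (.leaf 2 350846) (.leaf 2 347796)) (.node (.leaf 2 344798) (.leaf 2 341851))) (.node (.node (.leaf 2 338954) (.leaf 2 336106)) (.node (.leaf 2 333306) (.leaf 3 329870)))) (.node (.node (.node (.leaf 3 325839) (.leaf 3 321906)) (.node (.leaf 3 318066) (.leaf 3 314317))) (.node (.node (.leaf 3 310655) (.leaf 3 307078)) (.node (.leaf 3 303582) (.leaf 3 300165))))) (.node (.node (.node (.node (.leaf 3 296824) (.leaf 3 293556)) (.node (.leaf 3 290360) (.leaf 3 287233))) (.node (.node (.leaf 3 284172) (.leaf 3 281175)) (.node (.leaf 3 278242) (.leaf 3 275368)))) (.node (.node (.node (.leaf 3 272554) (.leaf 3 269796)) (.node (.leaf 3 267094) (.leaf 3 264445))) (.node (.node (.leaf 3 261849) (.leaf 3 259302)) (.node (.leaf 3 256805) (.leaf 3 254356))))))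
def bt7 : BT := (.node (.node (.node (.node (.node (.leaf 3 251953) (.leaf 3 249594)) (.node (.leaf 4 246898) (.leaf 4 243888))) (.node (.node (.leaf 4 240949) (.leaf 4 238081)) (.node (.leaf 4 235280) (.leaf 4 232545)))) (.node (.node (.node (.leaf 4 229872) (.leaf 4 227260)) (.node (.leaf 4 224706) (.leaf 4 222210))) (.node (.node (.leaf 4 219768) (.leaf 4 217379)) (.node (.leaf 4 215042) (.leaf 4 212755))))) (.node (.node (.node (.node (.leaf 4 210515) (.leaf 4 208322)) (.node (.leaf 4 206175) (.leaf 4 204071))) (.node (.node (.leaf 4 202010) (.leaf 4 199990)) (.node (.leaf 5 197765) (.leaf 5 195351)))) (.node (.node (.node (.leaf 5 192994) (.leaf 5 190694)) (.node (.leaf 5 188448) (.leaf 5 186254))) (.node (.node (.leaf 5 184111) (.leaf 5 182017)) (.node (.leaf 5 179969) (.leaf 5 177968))))))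
def bt8 : BT := (.node (.node (.node (.node (.node (.leaf 5 176010) (.leaf 5 174095)) (.node (.leaf 5 172221) (.leaf 5 170387))) (.node (.node (.leaf 5 168591) (.leaf 5 166834)) (.node (.leaf 6 164942) (.leaf 6 162926)))) (.node (.node (.node (.leaf 6 160959) (.leaf 6 159039)) (.node (.leaf 6 157165) (.leaf 6 155334))) (.node (.node (.leaf 6 153545) (.leaf 6 151797)) (.node (.leaf 6 150088) (.leaf 6 148417))))) (.node (.node (.node (.node (.leaf 6 146784) (.leaf 6 145185)) (.node (.leaf 6 143621) (.leaf 6 142091))) (.node (.node (.leaf 7 140469) (.leaf 7 138764)) (.node (.leaf 7 137099) (.leaf 7 135474)))) (.node (.node (.node (.leaf 7 133887) (.leaf 7 132336)) (.node (.leaf 7 130822) (.leaf 7 129341))) (.node (.node (.leaf 7 127894) (.leaf 7 126478)) (.node (.leaf 7 125094) (.leaf 8 123644))))))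
def bt9 : BT := (.node (.node (.node (.node (.node (.leaf 8 122134) (.leaf 8 120660)) (.node (.leaf 8 119221) (.leaf 8 117817))) (.node (.node (.leaf 8 116445) (.leaf 8 115105)) (.node (.leaf 8 113795) (.leaf 8 112514)))) (.node (.node (.node (.leaf 8 111263) (.leaf 9 109963)) (.node (.leaf 9 108619) (.leaf 9 107308))) (.node (.node (.leaf 9 106028) (.leaf 9 104778)) (.node (.leaf 9 103557) (.leaf 9 102365))))) (.node (.node (.node (.node (.leaf 9 101199) (.leaf 9 100060)) (.node (.leaf 10 98885) (.leaf 10 97678))) (.node (.node (.leaf 10 96499) (.leaf 10 95349)) (.node (.leaf 10 94226) (.leaf 10 93129)))) (.node (.node (.node (.leaf 10 92058) (.leaf 10 91010)) (.node (.leaf 11 89936) (.leaf 11 88838))) (.node (.node (.leaf 11 87765) (.leaf 11 86719)) (.node (.leaf 11 85697) (.leaf 11 84699))))))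
def bt10 : BT := (.node (.node (.node (.node (.node (.leaf 11 83724) (.leaf 12 82728)) (.node (.leaf 12 81714) (.leaf 12 80725))) (.node (.node (.leaf 12 79759) (.leaf 12 78816)) (.node (.leaf 12 77895) (.leaf 12 76996)))) (.node (.node (.node (.leaf 13 76080) (.leaf 13 75151)) (.node (.leaf 13 74245) (.leaf 13 73359))) (.node (.node (.leaf 13 72495) (.leaf 13 71651)) (.node (.leaf 14 70795) (.leaf 14 69929))))) (.node (.node (.node (.node (.leaf 14 69083) (.leaf 14 68258)) (.node (.leaf 14 67452) (.leaf 14 66666))) (.node (.node (.leaf 15 65870) (.leaf 15 65066)) (.node (.leaf 15 64282) (.leaf 15 63516)))) (.node (.node (.node (.leaf 15 62769) (.leaf 16 62015)) (.node (.leaf 16 61255) (.leaf 16 60513))) (.node (.node (.leaf 16 59790) (.leaf 16 59083)) (.node (.leaf 17 58372) (.leaf 17 57657))))))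
def bt11 : BT := (.node (.node (.node (.node (.node (.leaf 17 56959) (.leaf 17 56278)) (.node (.leaf 17 55613) (.leaf 18 54944))) (.node (.node (.leaf 18 54273) (.leaf 18 53619)) (.node (.leaf 18 52979) (.leaf 18 52355)))) (.node (.node (.node (.leaf 19 51729) (.leaf 19 51101)) (.node (.leaf 19 50488) (.leaf 19 49890))) (.node (.node (.leaf 20 49291) (.leaf 20 48691)) (.node (.leaf 20 48105) (.leaf 20 47534))))) (.node (.node (.node (.node (.leaf 21 46962) (.leaf 21 46390)) (.node (.leaf 21 45832) (.leaf 21 45287))) (.node (.node (.leaf 22 44742) (.leaf 22 44198)) (.node (.leaf 22 43668) (.leaf 23 43138)))) (.node (.node (.node (.leaf 23 42609) (.leaf 23 42094)) (.node (.leaf 23 41590) (.leaf 24 41088))) (.node (.node (.leaf 24 40588) (.leaf 24 40100)) (.node (.leaf 25 39613) (.leaf 25 39129))))))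
def bt12 : BT := (.node (.node (.node (.node (.node (.leaf 25 38656) (.leaf 26 38186)) (.node (.leaf 26 37718) (.leaf 26 37261))) (.node (.node (.leaf 26 36815) (.leaf 27 36372)) (.node (.leaf 27 35931) (.leaf 27 35500)))) (.node (.node (.node (.leaf 28 35072) (.leaf 28 34647)) (.node (.leaf 29 34224) (.leaf 29 33805))) (.node (.node (.leaf 29 33396) (.leaf 30 32989)) (.node (.leaf 30 32586) (.leaf 30 32193))))) (.node (.node (.node (.node (.leaf 31 31803) (.leaf 31 31415)) (.node (.leaf 32 31032) (.leaf 32 30651))) (.node (.node (.leaf 32 30280) (.leaf 33 29912)) (.node (.leaf 33 29547) (.leaf 34 29186)))) (.node (.node (.node (.leaf 34 28829) (.leaf 34 28480)) (.node (.leaf 35 28134) (.leaf 35 27792))) (.node (.node (.leaf 36 27453) (.leaf 36 27118)) (.node (.leaf 37 26787) (.leaf 37 26459))))))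
def bt13 : BT := (.node (.node (.node (.node (.node (.leaf 38 26135) (.leaf 38 25815)) (.node (.leaf 38 25502) (.leaf 39 25193))) (.node (.node (.leaf 39 24887) (.leaf 40 24585)) (.node (.leaf 40 24286) (.leaf 41 23991)))) (.node (.node (.node (.leaf 41 23700) (.leaf 42 23412)) (.node (.leaf 42 23128) (.leaf 43 22847))) (.node (.node (.leaf 44 22567) (.leaf 44 22290)) (.node (.leaf 45 22017) (.leaf 45 21748))))) (.node (.node (.node (.node (.leaf 46 21482) (.leaf 46 21220)) (.node (.leaf 47 20962) (.leaf 47 20707))) (.node (.node (.leaf 48 20455) (.leaf 49 20204)) (.node (.leaf 49 19957) (.leaf 50 19714)))) (.node (.node (.node (.leaf 51 19472) (.leaf 51 19233)) (.node (.leaf 52 18998) (.leaf 52 18766))) (.node (.node (.leaf 53 18538) (.leaf 54 18311)) (.node (.leaf 54 18087) (.leaf 55 17867))))))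
def bt14 : BT := (.node (.node (.node (.node (.node (.leaf 56 17648) (.leaf 57 17431)) (.node (.leaf 57 17217) (.leaf 58 17007))) (.node (.node (.leaf 59 16798) (.leaf 59 16592)) (.node (.leaf 60 16390) (.leaf 61 16189)))) (.node (.node (.node (.leaf 62 15990) (.leaf 62 15795)) (.node (.leaf 63 15602) (.leaf 64 15411))) (.node (.node (.leaf 65 15222) (.leaf 66 15035)) (.node (.leaf 66 14851) (.leaf 67 14669))))) (.node (.node (.node (.node (.leaf 68 14490) (.leaf 69 14312)) (.node (.leaf 70 14137) (.leaf 71 13963))) (.node (.node (.leaf 72 13791) (.leaf 72 13622)) (.node (.leaf 73 13456) (.leaf 74 13291)))) (.node (.node (.node (.leaf 75 13129) (.leaf 76 12968)) (.node (.leaf 77 12809) (.leaf 78 12652))) (.node (.node (.leaf 79 12497) (.leaf 80 12344)) (.node (.leaf 81 12192) (.leaf 82 12043))))))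
def bt15 : BT := (.node (.node (.node (.node (.node (.leaf 83 11895) (.leaf 84 11749)) (.node (.leaf 85 11605) (.leaf 86 11463))) (.node (.node (.leaf 87 11323) (.leaf 88 11184)) (.node (.leaf 89 11047) (.leaf 91 10912)))) (.node (.node (.node (.leaf 92 10777) (.leaf 93 10645)) (.node (.leaf 94 10514) (.leaf 95 10385))) (.node (.node (.leaf 96 10258) (.leaf 98 10132)) (.node (.leaf 99 10007) (.leaf 100 9884))))) (.node (.node (.node (.node (.leaf 101 9763) (.leaf 103 9643)) (.node (.leaf 104 9524) (.leaf 105 9407))) (.node (.node (.leaf 106 9291) (.leaf 108 9177)) (.node (.leaf 109 9065) (.leaf 110 8954)))) (.node (.node (.node (.leaf 112 8844) (.leaf 113 8735)) (.node (.leaf 115 8628) (.leaf 116 8521))) (.node (.node (.leaf 118 8417) (.leaf 119 8313)) (.node (.leaf 121 8211) (.leaf 122 8109))))))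
def bt16 : BT := (.node (.node (.node (.node (.node (.leaf 124 8010) (.leaf 125 7911)) (.node (.leaf 127 7814) (.leaf 128 7718))) (.node (.node (.leaf 130 7623) (.leaf 131 7529)) (.node (.leaf 133 7437) (.leaf 135 7345)))) (.node (.node (.node (.leaf 136 7255) (.leaf 138 7166)) (.node (.leaf 140 7078) (.leaf 142 6991))) (.node (.node (.leaf 143 6905) (.leaf 145 6820)) (.node (.leaf 147 6736) (.leaf 149 6653))))) (.node (.node (.node (.node (.leaf 151 6571) (.leaf 153 6490)) (.node (.leaf 155 6410) (.leaf 156 6331))) (.node (.node (.leaf 158 6253) (.leaf 160 6177)) (.node (.leaf 162 6101) (.leaf 164 6026)))) (.node (.node (.node (.leaf 166 5952) (.leaf 169 5879)) (.node (.leaf 171 5806) (.leaf 173 5735))) (.node (.node (.leaf 175 5664) (.leaf 177 5594)) (.node (.leaf 179 5525) (.leaf 182 5457))))))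
def bt17 : BT := (.node (.node (.node (.node (.node (.leaf 184 5390) (.leaf 186 5324)) (.node (.leaf 188 5258) (.leaf 191 5194))) (.node (.node (.leaf 193 5130) (.leaf 196 5066)) (.node (.leaf 198 5004) (.leaf 201 4942)))) (.node (.node (.node (.leaf 203 4881) (.leaf 206 4821)) (.node (.leaf 208 4762) (.leaf 211 4703))) (.node (.node (.leaf 213 4645) (.leaf 216 4588)) (.node (.leaf 219 4532) (.leaf 222 4476))))) (.node (.node (.node (.node (.leaf 224 4421) (.leaf 227 4366)) (.node (.leaf 230 4312) (.leaf 233 4259))) (.node (.node (.leaf 236 4207) (.leaf 239 4155)) (.node (.leaf 228 4105) (.leaf 245 4056)))) (.node (.node (.node (.leaf 248 4006) (.leaf 251 3956)) (.node (.leaf 254 3908) (.leaf 257 3859))) (.node (.node (.leaf 260 3812) (.leaf 263 3765)) (.node (.leaf 267 3719) (.leaf 270 3673))))))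
def bt18 : BT := (.node (.node (.node (.node (.node (.leaf 273 3628) (.leaf 277 3583)) (.node (.leaf 280 3539) (.leaf 284 3495))) (.node (.node (.leaf 287 3452) (.leaf 291 3410)) (.node (.leaf 295 3367) (.leaf 298 3326)))) (.node (.node (.node (.leaf 302 3285) (.leaf 306 3245)) (.node (.leaf 310 3204) (.leaf 313 3165))) (.node (.node (.leaf 317 3126) (.leaf 321 3088)) (.node (.leaf 325 3050) (.leaf 329 3012))))) (.node (.node (.node (.node (.leaf 334 2975) (.leaf 338 2938)) (.node (.leaf 342 2902) (.leaf 346 2866))) (.node (.node (.leaf 351 2831) (.leaf 355 2796)) (.node (.leaf 359 2761) (.leaf 364 2727)))) (.node (.node (.node (.leaf 368 2694) (.leaf 373 2661)) (.node (.leaf 378 2628) (.leaf 382 2595))) (.node (.node (.leaf 387 2563) (.leaf 392 2532)) (.node (.leaf 397 2501) (.leaf 402 2470))))))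
def bt19 : BT := (.node (.node (.node (.node (.node (.leaf 407 2439) (.leaf 412 2409)) (.node (.leaf 417 2379) (.leaf 422 2350))) (.node (.node (.leaf 428 2321) (.leaf 433 2293)) (.node (.leaf 438 2264) (.leaf 444 2236)))) (.node (.node (.node (.leaf 449 2209) (.leaf 455 2182)) (.node (.leaf 461 2155) (.leaf 466 2128))) (.node (.node (.leaf 472 2102) (.leaf 478 2076)) (.node (.leaf 484 2050) (.leaf 490 2025))))) (.node (.node (.node (.node (.leaf 496 2000) (.leaf 503 1975)) (.node (.leaf 509 1951) (.leaf 515 1927))) (.node (.node (.leaf 522 1903) (.leaf 528 1880)) (.node (.leaf 535 1857) (.leaf 541 1834)))) (.node (.node (.node (.leaf 548 1811) (.leaf 555 1789)) (.node (.leaf 562 1767) (.leaf 569 1745))) (.node (.node (.leaf 576 1723) (.leaf 583 1702)) (.node (.leaf 591 1681) (.leaf 598 1660))))))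
def bt20 : BT := (.node (.node (.node (.node (.node (.leaf 605 1640) (.leaf 613 1620)) (.node (.leaf 621 1600) (.leaf 628 1580))) (.node (.node (.leaf 636 1561) (.leaf 644 1541)) (.node (.leaf 652 1522) (.leaf 660 1504)))) (.node (.node (.node (.leaf 669 1485) (.leaf 677 1467)) (.node (.leaf 686 1449) (.leaf 694 1431))) (.node (.node (.leaf 703 1413) (.leaf 712 1396)) (.node (.leaf 720 1378) (.leaf 729 1361))))) (.node (.node (.node (.node (.leaf 739 1345) (.leaf 748 1328)) (.node (.leaf 757 1312) (.leaf 767 1295))) (.node (.node (.leaf 776 1279) (.leaf 786 1264)) (.node (.leaf 796 1248) (.leaf 806 1233)))) (.node (.node (.node (.leaf 816 1217) (.leaf 826 1202)) (.node (.leaf 836 1188) (.leaf 847 1173))) (.node (.node (.leaf 857 1158) (.leaf 868 1144)) (.node (.leaf 879 1130) (.leaf 890 1116))))))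
def bt21 : BT := (.node (.node (.node (.node (.node (.leaf 901 1102) (.leaf 912 1089)) (.node (.leaf 924 1075) (.leaf 935 1062))) (.node (.node (.leaf 947 1049) (.leaf 959 1036)) (.node (.leaf 971 1023) (.leaf 983 1011)))) (.node (.node (.node (.leaf 995 998) (.leaf 1008 986)) (.node (.leaf 1020 974) (.leaf 1033 962))) (.node (.node (.leaf 1046 950) (.leaf 1059 938)) (.node (.leaf 1072 926) (.leaf 1086 915))))) (.node (.node (.node (.node (.leaf 1099 904) (.leaf 1113 893)) (.node (.leaf 1127 882) (.leaf 1141 871))) (.node (.node (.leaf 1155 860) (.leaf 1170 849)) (.node (.leaf 1184 839) (.leaf 1199 828)))) (.node (.node (.node (.leaf 1214 818) (.leaf 1229 808)) (.node (.leaf 1245 798) (.leaf 1260 788))) (.node (.node (.leaf 1276 779) (.leaf 1292 769)) (.node (.leaf 1308 760) (.leaf 1324 750))))))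
def bt22 : BT := (.node (.node (.node (.node (.node (.leaf 1341 741) (.leaf 1358 732)) (.node (.leaf 1375 723) (.leaf 1392 714))) (.node (.node (.leaf 1409 705) (.leaf 1427 696)) (.node (.leaf 1445 688) (.leaf 1463 679)))) (.node (.node (.node (.leaf 1481 671) (.leaf 1500 663)) (.node (.leaf 1518 654) (.leaf 1537 646))) (.node (.node (.leaf 1556 638) (.leaf 1576 630)) (.node (.leaf 1596 623) (.leaf 1616 615))))) (.node (.node (.node (.node (.leaf 1636 607) (.leaf 1656 600)) (.node (.leaf 1677 592) (.leaf 1698 585))) (.node (.node (.leaf 1719 578) (.leaf 1741 571)) (.node (.leaf 1762 564) (.leaf 1784 557)))) (.node (.node (.node (.leaf 1807 550) (.leaf 1829 543)) (.node (.leaf 1852 536) (.leaf 1875 530))) (.node (.node (.leaf 1899 523) (.leaf 1922 517)) (.node (.leaf 1946 510) (.leaf 1971 504))))))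
def bt23 : BT := (.node (.node (.node (.node (.node (.leaf 1995 498) (.leaf 2020 492)) (.node (.leaf 2046 486) (.leaf 2071 480))) (.node (.node (.leaf 2097 474) (.leaf 2123 468)) (.node (.leaf 2150 462) (.leaf 2177 456)))) (.node (.node (.node (.leaf 2204 451) (.leaf 2231 445)) (.node (.leaf 2259 440) (.leaf 2288 434))) (.node (.node (.leaf 2316 429) (.leaf 2345 424)) (.node (.leaf 2374 418) (.leaf 2404 413))))) (.node (.node (.node (.node (.leaf 2434 408) (.leaf 2465 403)) (.node (.leaf 2495 398) (.leaf 2527 393))) (.node (.node (.leaf 2558 388) (.leaf 2590 384)) (.node (.leaf 2623 379) (.leaf 2655 374)))) (.node (.node (.node (.leaf 2689 370) (.leaf 2722 365)) (.node (.leaf 2756 361) (.leaf 2791 356))) (.node (.node (.leaf 2825 352) (.leaf 2861 347)) (.node (.leaf 2897 343) (.leaf 2933 339))))))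
def bt24 : BT := (.node (.node (.node (.node (.node (.leaf 2969 335) (.leaf 3007 330)) (.node (.leaf 3044 326) (.leaf 3082 322))) (.node (.node (.leaf 3121 318) (.leaf 3160 314)) (.node (.leaf 3199 311) (.leaf 3239 307)))) (.node (.node (.node (.leaf 3280 303) (.leaf 3321 299)) (.node (.leaf 3362 296) (.leaf 3404 292))) (.node (.node (.leaf 3447 288) (.leaf 3490 285)) (.node (.leaf 3533 281) (.leaf 3578 278))))) (.node (.node (.node (.node (.leaf 3622 274) (.leaf 3668 271)) (.node (.leaf 3714 268) (.leaf 3760 264))) (.node (.node (.leaf 3807 261) (.leaf 3855 258)) (.node (.leaf 3903 255) (.leaf 3951 251)))) (.node (.node (.node (.leaf 4001 248) (.leaf 4051 245)) (.node (.leaf 4102 242) (.leaf 4153 239))) (.node (.node (.leaf 4205 236) (.leaf 4257 233)) (.node (.leaf 4310 231) (.leaf 4364 228))))))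
def bt25 : BT := (.node (.node (.node (.node (.node (.leaf 4419 225) (.leaf 4474 222)) (.node (.leaf 4530 219) (.leaf 4587 217))) (.node (.node (.leaf 4644 214) (.leaf 4702 211)) (.node (.leaf 4761 209) (.leaf 4820 206)))) (.node (.node (.node (.leaf 4881 204) (.leaf 4942 201)) (.node (.leaf 5003 199) (.leaf 5066 196))) (.node (.node (.leaf 5129 194) (.leaf 5193 191)) (.node (.leaf 5258 189) (.leaf 5324 187))))) (.node (.node (.node (.node (.leaf 5391 184) (.leaf 5458 182)) (.node (.leaf 5526 180) (.leaf 5595 178))) (.node (.node (.leaf 5665 175) (.leaf 5736 173)) (.node (.leaf 5808 171) (.leaf 5880 169)))) (.node (.node (.node (.leaf 5954 167) (.leaf 6028 165)) (.node (.leaf 6104 163) (.leaf 6180 161))) (.node (.node (.leaf 6257 159) (.leaf 6335 157)) (.node (.leaf 6415 155) (.leaf 6495 153))))))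
def bt26 : BT := (.node (.node (.node (.node (.node (.leaf 6576 151) (.leaf 6658 149)) (.node (.leaf 6741 147) (.leaf 6826 146))) (.node (.node (.leaf 6911 144) (.leaf 6997 142)) (.node (.leaf 7085 140) (.leaf 7173 139)))) (.node (.node (.node (.leaf 7263 137) (.leaf 7354 135)) (.node (.leaf 7446 133) (.leaf 7539 132))) (.node (.node (.leaf 7633 130) (.leaf 7728 129)) (.node (.leaf 7825 127) (.leaf 7923 125))))) (.node (.node (.node (.node (.leaf 8022 124) (.leaf 8122 122)) (.node (.leaf 8224 121) (.leaf 8326 119))) (.node (.node (.leaf 8431 118) (.leaf 8536 116)) (.node (.leaf 8643 115) (.leaf 8751 114)))) (.node (.node (.node (.leaf 8860 112) (.leaf 8971 111)) (.node (.leaf 9083 109) (.leaf 9197 108))) (.node (.node (.leaf 9311 107) (.leaf 9428 105)) (.node (.leaf 9546 104) (.leaf 9665 103))))))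
def bt27 : BT := (.node (.node (.node (.node (.node (.leaf 9786 102) (.leaf 9908 100)) (.node (.leaf 10032 99) (.leaf 10157 98))) (.node (.node (.leaf 10284 97) (.leaf 10413 95)) (.node (.leaf 10543 94) (.leaf 10675 93)))) (.node (.node (.node (.leaf 10808 92) (.leaf 10943 91)) (.node (.leaf 11080 90) (.leaf 11219 89))) (.node (.node (.leaf 11359 87) (.leaf 11501 86)) (.node (.leaf 11645 85) (.leaf 11790 84))))) (.node (.node (.node (.node (.leaf 11938 83) (.leaf 12087 82)) (.node (.leaf 12238 81) (.leaf 12391 80))) (.node (.node (.leaf 12546 79) (.leaf 12703 78)) (.node (.leaf 12861 77) (.leaf 13022 76)))) (.node (.node (.node (.leaf 13185 75) (.leaf 13350 74)) (.node (.leaf 13517 74) (.leaf 13686 73))) (.node (.node (.leaf 13857 72) (.leaf 14030 71)) (.node (.leaf 14205 70) (.leaf 14383 69))))))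
def bt28 : BT := (.node (.node (.node (.node (.node (.leaf 14563 68) (.leaf 14745 67)) (.node (.leaf 14929 67) (.leaf 15116 66))) (.node (.node (.leaf 15305 65) (.leaf 15496 64)) (.leaf 15690 63))) (.node (.node (.node (.leaf 15886 63) (.leaf 16084 62)) (.node (.leaf 16285 61) (.leaf 16489 60))) (.node (.node (.leaf 16695 60) (.leaf 16904 59)) (.leaf 17115 58)))) (.node (.node (.node (.node (.leaf 17329 57) (.leaf 17546 57)) (.node (.leaf 17765 56) (.leaf 17987 55))) (.node (.node (.leaf 18212 55) (.leaf 18439 54)) (.leaf 18670 53))) (.node (.node (.node (.leaf 18903 53) (.leaf 19140 52)) (.node (.leaf 19379 51) (.leaf 19621 51))) (.node (.node (.leaf 19866 50) (.leaf 15143 49)) (.leaf 3379776 0)))))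
def bt : BT := (.node (.node (.node (.node (.node bt0 bt1) (.node bt2 bt3)) (.node (.node bt4 bt5) (.node bt6 bt7))) (.node (.node (.node bt8 bt9) (.node bt10 bt11)) (.node (.node bt12 bt13) bt14))) (.node (.node (.node (.node bt15 bt16) (.node bt17 bt18)) (.node (.node bt19 bt20) bt21)) (.node (.node (.node bt22 bt23) (.node bt24 bt25)) (.node (.node bt26 bt27) bt28))))

def ft0 : BT := (.node (.node (.node (.node (.node (.leaf 246 1539) (.leaf 276 1619)) (.node (.leaf 310 1669) (.leaf 349 1709))) (.node (.node (.leaf 391 1745) (.leaf 440 1779)) (.node (.leaf 493 1811) (.leaf 554 1843)))) (.node (.node (.node (.leaf 623 1874) (.leaf 698 1905)) (.node (.leaf 785 1937) (.leaf 881 1970))) (.node (.node (.leaf 990 2003) (.leaf 1111 2037)) (.node (.leaf 1248 2072) (.leaf 1401 2108))))) (.node (.node (.node (.node (.leaf 1574 2145) (.leaf 1767 2184)) (.node (.leaf 1984 2225) (.leaf 2228 2268))) (.node (.node (.leaf 2502 2312) (.leaf 2810 2359)) (.node (.leaf 3155 2408) (.leaf 3543 2459)))) (.node (.node (.node (.leaf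 3979 2512) (.leaf 4468 2569)) (.node (.leaf 5018 2628) (.leaf 5634 2690))) (.node (.node (.leaf 6327 2755) (.leaf 7105 2823)) (.node (.leaf 7978 2894) (.leaf 8959 2969))))))
def ft1 : BT := (.node (.node (.node (.node (.node (.leaf 10061 3046) (.leaf 11298 3127)) (.node (.leaf 12687 3210) (.leaf 14247 3296))) (.node (.node (.leaf 15998 3383) (.leaf 17965 3471)) (.node (.leaf 20174 3559) (.leaf 22655 3646)))) (.node (.node (.node (.leaf 25440 3729) (.leaf 28568 3807)) (.node (.leaf 32080 3877) (.leaf 36024 3935))) (.node (.node (.leaf 40453 3977) (.leaf 45427 4000)) (.leaf 51013 3997)))) (.node (.node (.node (.node (.leaf 57284 3964) (.leaf 64327 3895)) (.node (.leaf 72237 3785) (.leaf 81117 3631))) (.node (.node (.leaf 91091 3431) (.leaf 102291 3189)) (.leaf 114867 2909))) (.node (.node (.node (.leaf 128990 2604) (.leaf 144849 2287)) (.node (.leaf 162658 1974) (.leaf 182657 1673))) (.node (.node (.leaf 205114 1374) (.leaf 230333 1048)) (.leaf 2902395 0)))))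
def ft : BT := (.node ft0 ft1)

def st0 : ST := (.node (.node (.node (.node (.node (.leaf 3684164) (.leaf 137915)) (.node (.leaf 6907) (.leaf 108432))) (.node (.node (.leaf 19370) (.leaf 89755)) (.node (.leaf 23126) (.leaf 2372)))) (.node (.node (.node (.leaf 87315) (.leaf 14062)) (.node (.leaf 1094) (.leaf 84407))) (.node (.node (.leaf 6343) (.leaf 79754)) (.node (.leaf 1672) (.leaf 59980))))) (.node (.node (.node (.node (.leaf 12067) (.leaf 38433)) (.node (.leaf 26388) (.leaf 30105))) (.node (.node (.leaf 45663) (.leaf 24011)) (.node (.leaf 23668) (.leaf 20140)))) (.node (.node (.node (.leaf 11539) (.leaf 18896)) (.node (.leaf 16179) (.leaf 5482))) (.node (.node (.leaf 16890) (.leaf 14027)) (.node (.leaf 3989) (.leaf 15427))))))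
def st1 : ST := (.node (.node (.node (.node (.node (.leaf 12648) (.leaf 3591)) (.node (.leaf 14185) (.leaf 11372))) (.node (.node (.leaf 2957) (.leaf 13089)) (.node (.leaf 10166) (.leaf 2318)))) (.node (.node (.node (.leaf 12106) (.leaf 8962)) (.node (.leaf 2364) (.leaf 11134))) (.node (.node (.leaf 7417) (.leaf 9809)) (.node (.leaf 7788) (.leaf 5256))))) (.node (.node (.node (.node (.leaf 8832) (.leaf 2800)) (.node (.leaf 9227) (.leaf 4774))) (.node (.node (.leaf 8699) (.leaf 4066)) (.node (.leaf 8126) (.leaf 3282)))) (.node (.node (.node (.leaf 7586) (.leaf 2661)) (.node (.leaf 7020) (.leaf 2277))) (.node (.node (.leaf 6415) (.leaf 3437)) (.node (.leaf 4529) (.leaf 5776))))))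
def st2 : ST := (.node (.node (.node (.node (.node (.leaf 4539) (.leaf 2519)) (.leaf 4172)) (.node (.node (.leaf 4386) (.leaf 4044)) (.leaf 3632))) (.node (.node (.node (.leaf 3259) (.leaf 2936)) (.leaf 2678)) (.node (.leaf 2446) (.leaf 2339)))) (.node (.node (.node (.node (.leaf 2244) (.leaf 2103)) (.leaf 1820)) (.node (.node (.leaf 1661) (.leaf 1462)) (.leaf 1212))) (.node (.node (.node (.leaf 956) (.leaf 708)) (.leaf 470)) (.node (.leaf 246) (.leaf 53)))))
def st : ST := (.node (.node st0 st1) st2)

def ops : List (Bool × ℕ) := [(false, 51), (true, 52), (false, 51), (false, 52), (false, 52), (false, 51), (true, 51), (false, 52), (false, 52), (false, 51), (false, 51), (false, 52), (false, 51), (false, 51), (false, 52), (false, 52), (false, 52), (false, 51), (false, 51)]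

/-- parameters: w, tK, tH, m, K, XX, q, BC -/
def pars : List ℕ := [104, 51, 0, 3, 200705, 19600, 100000, 39327640285375865]

end Pool.Agent.H529.MP.DatD
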