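import Pool.Agent.H529.MP.CK2Defs
import Pool.Agent.H529.MP.DatD

/-! H529/MP: the kernel check of the certificate for four primes, `K = 200705` linear forms. -/

namespace Pool.Agent.H529.MP

set_option maxRecDepth 100000 in
theorem certD : chkR 104 DatD.bt DatD.ft DatD.st DatD.ops 51 0 3 200705 19600 100000 39327640285375865 =
    true := by
  decide +kernel

end Pool.Agent.H529.MP
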