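import Pool.Agent.H529.MP.CK2
import Pool.Agent.H529.MP.CertD
import Pool.Graph.R_seed8.H358R5.CLS

/-! H529/MP: four primes among `200705` admissible linear forms. -/

open Finset Filter

namespace Pool.Agent.H529.MP

open Pool.Agent.H358R5

set_option maxRecDepth 100000 in
theorem btD_len : Nat.ble 2 DatD.bt.len = true := by decide +kernel

/-- four primes among `200705` admissible linear forms -/
theorem lhyp4 : LHyp 3 200705 :=
  lhyp_of_chkR 104 DatD.bt DatD.ft DatD.st DatD.ops 51 0 3 200704 200705 19600 100000 39327640285375865
    rfl (by norm_num) (Nat.le_of_ble_eq_true btD_len) (by norm_num) (by norm_num) certD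

theorem chyp4 : CHyp 3 200705 := CLS_proof 3 200705 lhyp4

end Pool.Agent.H529.MP
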