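import Pool.Agent.H529.MP.CK2
import Pool.Agent.H529.MP.Cert
import Pool.Graph.R_seed8.H358R5.CLS

/-! H529/MP: three primes among `2946` admissible linear forms. -/

open Finset Filter

namespace Pool.Agent.H529.MP

open Pool.Agent.H358R5

set_option maxRecDepth 100000 in
theorem bt_len : Nat.ble 2 Dat.bt.len = true := by decide +kernel

/-- three primes among `2946` admissible linear forms -/
theorem lhyp3 : LHyp 2 2946 :=
  lhyp_of_chkR 104 Dat.bt Dat.ft Dat.st Dat.ops 52 0 2 2945 2946 8192 55000 5020894379798958614185997349421056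
    rfl (by norm_num) (Nat.le_of_ble_eq_true bt_len) (by norm_num) (by norm_num) cert

theorem chyp3 : CHyp 2 2946 := CLS_proof 2 2946 lhyp3

end Pool.Agent.H529.MP
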