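import Pool.Agent.H529.MP.Tup
import Pool.Graph.R_seed8.H358R5.TUPK
import Pool.Graph.R_seed8.H358R5.TUPC
import Pool.Graph.R_seed8.H358R5.REP

/-! H529/MP: an admissible tuple of 2946 integers in an interval of length 26256. -/

namespace Pool.Agent.H529.MP

open Pool.Agent.H358R5

set_option maxRecDepth 100000 in
theorem tup_check : chkT 2946 26256 53 15 12 Tup.l = true := by
  decide +kernel

theorem tup : ∃ h : Fin 2946 → ℕ, Adm3 h ∧ ∀ i, h i ≤ 26256 :=
  TUPK_proof TUPC_proof REP_proof 2946 26256 53 15 12 Tup.l tup_check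

end Pool.Agent.H529.MP
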