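import Mathlib
import Pool.Graph.R_seed8.H358R5.PI3
import Pool.Graph.R_seed8.H358R5.PTUP

/-! H529/MP: at least `200705` primes in `[200713, 3028813]` (sieve of the starting files `H358R5.PI3`, evaluated by
the kernel); they form an admissible tuple of diameter at most `2828100`. -/

open Finset

namespace Pool.Agent.H529.MP

open Pool.Agent.H358R5

set_option maxRecDepth 100000 in
theorem PI4_kernel : PI3_pc 21 1 ((PI3_sieve 1514406 PI3_list 0 >>> 100356) % 2 ^ 1414051) ≤ 1213346 := by
  apply Nat.le_of_ble_eq_true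
  decide +kernel

theorem PI4_prime (j : ℕ) (h1 : 100356 ≤ j) (h2 : j ≤ 1514406)
    (h : ¬ (PI3_sieve 1514406 PI3_list 0).testBit j = true) : (2 * j + 1).Prime := by
  by_contra hnp
  apply h
  apply PI3_sieve_bit 1514406 j h2
  right
  have hp : (Nat.minFac (2 * j + 1)).Prime := Nat.minFac_prime (by omega)
  have hd : Nat.minFac (2 * j + 1) ∣ 2 * j + 1 := Nat.minFac_dvd _
  have hsq : Nat.minFac (2 * j + 1) ^ 2 ≤ 2 * j + 1 := Nat.minFac_sq_le_self (by omega) hnp
  set p := Nat.minFac (2 * j + 1) with hpdef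
  have hle : p ≤ 2121 := by
    by_contra hcon
    have : 2122 ≤ p := by omega
    have h3 : 2122 ^ 2 ≤ p ^ 2 := Nat.pow_le_pow_left this 2
    have h4 : (2122 : ℕ) ^ 2 = 4502884 := by norm_num
    omega
  have hodd : p % 2 = 1 := by
    rcases hp.eq_two_or_odd with h3 | h3
    · rw [h3] at hd
      omega
    · exact h3
  have h3 : 3 ≤ p := by
    have := hp.two_le
    omega
  obtain ⟨q, hq, hqd⟩ := PI3_list_div ((p - 3) / 2) (by omega)
  have h4 : 2 * ((p - 3) / 2) + 3 = p := by omega
  rw [h4] at hqd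
  obtain ⟨hq1, hq2⟩ := PI3_list_odd q hq
  exact ⟨q, hq, hq1, hq2, (Nat.dvd_of_mod_eq_zero hqd).trans hd⟩

theorem PI4_abs (C n s v : ℕ) (hn : n = 1414051) (hs : n ≤ 2 ^ s) (hv : v = 1213346)
    (h : PI3_pc s 1 ((C >>> 100356) % 2 ^ n) ≤ v)
    (hprime : ∀ j, 100356 ≤ j → j ≤ 1514406 → ¬ C.testBit j = true → (2 * j + 1).Prime) :
    200705 ≤ ((Icc 200713 3028813).filter Nat.Prime).card := by
  have h2 := (PI3_gen C 100356 n s hs).trans h
  clear h hs
  have h1 : ((range n).filter (fun i => ¬ (C.testBit (100356 + i) = true))).card ≤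
      ((Icc 200713 3028813).filter Nat.Prime).card := by
    apply Finset.card_le_card_of_injOn (fun i => 2 * (100356 + i) + 1)
    · intro i hi
      rw [Finset.mem_coe, Finset.mem_filter, Finset.mem_range] at hi
      have hi1 := hi.1
      have hb1 : 200713 ≤ 2 * (100356 + i) + 1 := by omega
      have hb2 : 2 * (100356 + i) + 1 ≤ 3028813 := by omega
      rw [Finset.mem_coe, Finset.mem_filter, Finset.mem_Icc]
      exact ⟨⟨hb1, hb2⟩, hprime (100356 + i) (by omega) (by omega) hi.2⟩
    · intro i _ i' _ hii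
      simp only at hii
      omega
  have h3 := Finset.card_filter_add_card_filter_not (s := range n)
    (fun i => C.testBit (100356 + i) = true)
  rw [Finset.card_range] at h3
  omega

theorem PI4 : 200705 ≤ ((Icc 200713 (200713 + 2828100)).filter Nat.Prime).card :=
  PI4_abs (PI3_sieve 1514406 PI3_list 0) 1414051 21 1213346 rfl (by norm_num) rfl PI4_kernel
    PI4_prime

theorem tupD : ∃ h : Fin 200705 → ℕ, Adm h ∧ ∀ i, h i ≤ 2828100 :=
  PTUP_proof 200705 200713 2828100 (by norm_num) PI4

end Pool.Agent.H529.MP
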